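import Pool.Agent.Q13.KO.FD
import Pool.Agent.TH143.GT.Sec

/-!
Varieties of general type: the ratios of the pluricanonical forms of some weight generate the
function field.
-/

set_option autoImplicit false
set_option linter.overlappingInstances false
set_option linter.unusedSectionVars false

open FF IntermediateField MvPolynomial

namespace Pool.Agent.Q13.KO

open Pool.Agent.W602.GT Pool.Agent.TH466.QG Pool.Agent.TH466.QT
open Pool.Agent.W619.PQ Pool.Agent.W619.Y Pool.Agent.Y173.QA Pool.Agent.TH122.AB
open Pool.Agent.W603.LV (Ge)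

variable {k : Type} [Field k]

theorem reg_aeval {F : Type} [Field F] [Algebra k F] {ι : Type} (P : Place k F) {φ : ι → F}
    (h : ∀ i, P.Reg (φ i)) (p : MvPolynomial ι k) : P.Reg (aeval φ p) := by
  induction p using MvPolynomial.induction_on with
  | C a => rw [aeval_C]; exact P.reg_const a
  | add p q hp hq => rw [map_add]; exact P.reg_add hp hq
  | mul_X p i hp => rw [map_mul, aeval_X]; exact P.reg_mul hp (h i)

theorem reg_pow {F : Type} [Field F] [Algebra k F] (P : Place k F) {u : F} (h : P.Reg u) (n : ℕ) :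
    P.Reg (u ^ n) := by
  induction n with
  | zero => rw [pow_zero]; exact P.reg_one
  | succ n ih => rw [pow_succ]; exact P.reg_mul ih h

theorem aeval_scale_hom {R F : Type} [CommRing R] [CommRing F] [Algebra R F] {ι : Type} [Fintype ι]
    {H : MvPolynomial ι R} {d : ℕ} (hH : H.IsHomogeneous d)
    (f : ι → F) (c : F) : aeval (fun j => c * f j) H = c ^ d * aeval f H := by
  rw [aeval_def, aeval_def, eval₂_eq', eval₂_eq', Finset.mul_sum]
  refine Finset.sum_congr rfl fun α hα => ?_
  have h2 : ∑ a, α a = d := by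
    have := hH (mem_support_iff.1 hα)
    rw [← this, Finsupp.weight_apply, Finsupp.sum_fintype _ _ (by simp)]
    simp
  have h3 : ∏ a, (c * f a) ^ α a = c ^ d * ∏ a, f a ^ α a := by
    rw [← h2, ← Finset.prod_pow_eq_pow_sum, ← Finset.prod_mul_distrib]
    exact Finset.prod_congr rfl fun a _ => mul_pow _ _ _
  rw [h3]; ring

theorem reg_scaled {F : Type} [Field F] [Algebra k F] {w : ℕ} (P : Place k F) {φ : Fin w → F}
    {u : F} (hu : P.Reg u) (h : ∀ i, P.Reg (φ i * u)) (p : MvPolynomial (Fin w) k) {B : ℕ}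
    (hB : p.totalDegree ≤ B) : P.Reg (aeval φ p * u ^ B) := by
  classical
  have h1 : aeval φ p * u ^ B = ∑ j ∈ Finset.range (p.totalDegree + 1),
      aeval (fun i => φ i * u) (homogeneousComponent j p) * u ^ (B - j) := by
    conv_lhs => rw [← sum_homogeneousComponent p]
    rw [map_sum, Finset.sum_mul]
    refine Finset.sum_congr rfl fun j hj => ?_
    have hj' : j ≤ B := by
      rw [Finset.mem_range] at hj
      omega
    have h3 : aeval (fun i => φ i * u) (homogeneousComponent j p) =
        u ^ j * aeval φ (homogeneousComponent j p) := by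
      rw [← aeval_scale_hom (homogeneousComponent_isHomogeneous j p) φ u]
      congr 2
      funext i
      exact mul_comm _ _
    rw [h3, mul_comm (u ^ j), mul_assoc, ← pow_add, Nat.add_sub_cancel' hj']
  rw [h1]
  have hsum : ∀ t : Finset ℕ, P.Reg (∑ j ∈ t,
      aeval (fun i => φ i * u) (homogeneousComponent j p) * u ^ (B - j)) := by
    intro t
    induction t using Finset.induction_on with
    | empty => rw [Finset.sum_empty]; exact P.reg_zero
    | insert a t ha ih =>
      rw [Finset.sum_insert ha]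
      exact P.reg_add (P.reg_mul (reg_aeval P h _) (reg_pow P hu _)) ih
  exact hsum _

/-- An element which is integral over the polynomials in the `φ i` is regular after
multiplication by a power of `u`. -/
theorem reg_integral {F : Type} [Field F] [Algebra k F] {w : ℕ} {φ : Fin w → F} {θ : F}
    (hθ : IsIntegral (Algebra.adjoin k (Set.range φ)) θ) :
    ∃ B : ℕ, 0 < B ∧ ∀ (P : Place k F) (u : F), P.Reg u → (∀ i, P.Reg (φ i * u)) →
      P.Reg (θ * u ^ B) := by
  classical
  obtain ⟨p, hp, hpθ⟩ := hθ
  have hc : ∀ a : Algebra.adjoin k (Set.range φ), ∃ f : MvPolynomial (Fin w) k,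
      (a : F) = aeval φ f := by
    intro a
    have ha : (a : F) ∈ (aeval φ : MvPolynomial (Fin w) k →ₐ[k] F).range := by
      rw [← Algebra.adjoin_range_eq_range_aeval]
      exact a.2
    obtain ⟨f, hf⟩ := ha
    exact ⟨f, hf.symm⟩
  choose f hf using hc
  refine ⟨1 + ∑ i ∈ Finset.range (p.natDegree + 1), (f (p.coeff i)).totalDegree, by omega,
    fun P u hu hφ => ?_⟩
  obtain ⟨B, hB⟩ : ∃ B, B = 1 + ∑ i ∈ Finset.range (p.natDegree + 1),
    (f (p.coeff i)).totalDegree := ⟨_, rfl⟩
  rw [← hB]
  have hBi : ∀ i ≤ p.natDegree, (f (p.coeff i)).totalDegree ≤ B := by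
    intro i hi
    have h1 : (f (p.coeff i)).totalDegree ≤ ∑ i ∈ Finset.range (p.natDegree + 1),
        (f (p.coeff i)).totalDegree :=
      Finset.single_le_sum (f := fun i => (f (p.coeff i)).totalDegree)
        (fun _ _ => Nat.zero_le _) (Finset.mem_range.2 (by omega))
    omega
  let q : Polynomial F := (p.map (algebraMap _ F)).scaleRoots (u ^ B)
  have hp' : (p.map (algebraMap (Algebra.adjoin k (Set.range φ)) F)).Monic := hp.map _
  have hq : q.Monic := (Polynomial.monic_scaleRoots_iff _).2 hp'
  have hroot : Polynomial.aeval (u ^ B * θ) q = 0 := by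
    have h1 : Polynomial.aeval θ (p.map (algebraMap (Algebra.adjoin k (Set.range φ)) F)) = 0 := by
      rw [Polynomial.aeval_map_algebraMap]
      exact hpθ
    exact Polynomial.scaleRoots_aeval_eq_zero h1
  have hcoef : ∀ i, P.Reg (q.coeff i) := by
    intro i
    change P.Reg ((Polynomial.scaleRoots _ _).coeff i)
    rw [Polynomial.coeff_scaleRoots, Polynomial.coeff_map, hp.natDegree_map]
    rcases lt_trichotomy i p.natDegree with hi | hi | hi
    · have h1 := reg_scaled P hu hφ (f (p.coeff i)) (hBi i hi.le)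
      have h2 : (u ^ B) ^ (p.natDegree - i) = u ^ B * u ^ (B * (p.natDegree - i - 1)) := by
        rw [← pow_mul, ← pow_add]
        congr 1
        obtain ⟨r, hr⟩ : ∃ r, p.natDegree - i = r + 1 := ⟨p.natDegree - i - 1, by omega⟩
        rw [hr, Nat.add_sub_cancel]
        ring
      have h3 : algebraMap (Algebra.adjoin k (Set.range φ)) F (p.coeff i) = aeval φ (f (p.coeff i)) :=
        hf _
      rw [h2, h3, ← mul_assoc]
      exact P.reg_mul h1 (reg_pow P hu _)
    · rw [hi, Nat.sub_self, pow_zero, mul_one, hp.coeff_natDegree, map_one]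
      exact P.reg_one
    · rw [Polynomial.coeff_eq_zero_of_natDegree_lt hi, map_zero, zero_mul]
      exact P.reg_zero
  have hlift : q ∈ Polynomial.lifts (algebraMap P.O F) := by
    rw [Polynomial.lifts_iff_coeff_lifts]
    intro i
    exact ⟨⟨q.coeff i, hcoef i⟩, rfl⟩
  obtain ⟨q', hq', -, hq'm⟩ := Polynomial.lifts_and_natDegree_eq_and_monic hlift hq
  have hint : IsIntegral P.O (u ^ B * θ) := by
    refine ⟨q', hq'm, ?_⟩
    rw [← Polynomial.eval_map, hq', ← Polynomial.coe_aeval_eq_eval]
    exact hroot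
  have h1 := P.reg_of_isIntegral (A := P.O) (fun a => a.2) hint
  rwa [mul_comm] at h1

variable [CharZero k]

/-- **General type.** The ratios of the regular pluricanonical forms of some weight generate the
function field. -/
theorem exists_big {F : Type} [Field F] [Algebra k F] [Algebra.EssFiniteType k F] {w : ℕ}
    (h : GeneralType k F w) :
    ∃ (m N : ℕ) (x : Fin w → F) (E : Fin w → Derivation k F F) (r : Fin (N + 1) → F) (a0 : F),
      IsTranscendenceBasis k x ∧ (∀ i j, E i (x j) = if i = j then 1 else 0) ∧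
      a0 ≠ 0 ∧ r 0 = 1 ∧ coords k r = ⊤ ∧
      ∀ j, ∃ η : (Fin w → Derivation k F F) → F, IsPluri m η ∧
        (∀ P : Place k F, Divisorial w P → RegAt P η) ∧ η E = r j * a0 := by
  classical
  obtain ⟨htr, N0, hN0, ω, hω, hreg, D, hD0, hind⟩ := h
  obtain ⟨φ, hφ⟩ : ∃ φ : Fin w → F, φ = fun i => ω i.succ D / ω 0 D := ⟨_, rfl⟩
  rw [← hφ] at hind
  have hbas : IsTranscendenceBasis k φ := by
    refine hind.isTranscendenceBasis_of_lift_trdeg_le_of_finite ?_
    rw [htr]
    simp
  choose E hE using fun j => Pool.Agent.W619.PQ.exists_dual (k := k) φ hbas j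
  have hdual : ∀ i j, E i (φ j) = if i = j then 1 else 0 := by
    intro i j
    rw [hE i j]
    by_cases hij : i = j
    · subst hij; simp
    · rw [if_neg hij, if_neg (Ne.symm hij)]
  have hfr : ∀ j D', ω j D' = (Matrix.of fun a b => D' a (φ b)).det ^ N0 * ω j E := fun j D' =>
    pluri_frame (hω j) φ hbas E hdual D'
  have ha : ω 0 E ≠ 0 := by
    intro h0
    apply hD0
    rw [hfr, h0, mul_zero]
  have hdet : (Matrix.of fun a b => D a (φ b)).det ^ N0 ≠ 0 := by
    intro h0
    apply hD0
    rw [hfr, h0, zero_mul]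
  have hφE : ∀ i, ω i.succ E = φ i * ω 0 E := by
    intro i
    have h1 : φ i = ω i.succ E / ω 0 E := by
      rw [hφ]
      simp only []
      rw [hfr i.succ D, hfr 0 D, mul_div_mul_left _ _ hdet]
    rw [h1, div_mul_cancel₀ _ ha]
  have hφD : ∀ i D', φ i * ω 0 D' = ω i.succ D' := by
    intro i D'
    rw [hfr 0 D', hfr i.succ D', hφE]
    ring
  have hfd : FiniteDimensional (IntermediateField.adjoin k (Set.range φ)) F := fin_over φ hbas
  have hZ0 : ∀ f : MvPolynomial (Fin w) k, f ≠ 0 → aeval φ f ≠ 0 := fun f hf h0 =>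
    hf ((injective_iff_map_eq_zero _).1 hbas.1 _ h0)
  obtain ⟨θ0, hθ0⟩ := Field.exists_primitive_element
    (IntermediateField.adjoin k (Set.range φ)) F
  obtain ⟨q, hq0, hq⟩ := exists_mult hbas θ0
  obtain ⟨B, hB0, hB⟩ := reg_integral hq
  refine ⟨N0 * B, w + 1, φ, E, Fin.cons 1 (Fin.snoc φ (aeval φ q * θ0)), ω 0 E ^ B, hbas, hdual,
    pow_ne_zero _ ha, rfl, ?_, ?_⟩
  · -- generation
    rw [eq_top_iff]
    obtain ⟨C, hC⟩ : ∃ C : IntermediateField k F, C = coords k
      (Fin.cons 1 (Fin.snoc φ (aeval φ q * θ0)) : Fin (w + 1 + 1) → F) := ⟨_, rfl⟩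
    rw [← hC]
    have hmem : ∀ j, (Fin.cons 1 (Fin.snoc φ (aeval φ q * θ0)) : Fin (w + 1 + 1) → F) j ∈ C := by
      intro j
      rw [hC]
      refine IntermediateField.subset_adjoin k _ ⟨j, 0, ?_, ?_⟩
      · rw [Fin.cons_zero]; exact one_ne_zero
      · rw [Fin.cons_zero, div_one]
    have hφC : ∀ i, φ i ∈ C := by
      intro i
      have h1 := hmem (Fin.succ (Fin.castSucc i))
      rwa [Fin.cons_succ, Fin.snoc_castSucc] at h1
    have hle : IntermediateField.adjoin k (Set.range φ) ≤ C := by
      rw [IntermediateField.adjoin_le_iff]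
      rintro _ ⟨i, rfl⟩
      exact hφC i
    have hθC : θ0 ∈ C := by
      have h1 := hmem (Fin.succ (Fin.last w))
      rw [Fin.cons_succ, Fin.snoc_last] at h1
      have h2 : aeval φ q ∈ C := by
        apply hle
        refine IntermediateField.algebra_adjoin_le_adjoin k _ ?_
        rw [Algebra.adjoin_range_eq_range_aeval]
        exact ⟨q, rfl⟩
      have h3 := C.div_mem h1 h2
      rwa [mul_div_cancel_left₀ _ (hZ0 q hq0)] at h3
    intro z _
    have h1 : z ∈ IntermediateField.adjoin (IntermediateField.adjoin k (Set.range φ)) {θ0} := by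
      rw [hθ0]; trivial
    have h2 : IntermediateField.adjoin (IntermediateField.adjoin k (Set.range φ)) {θ0} ≤
        IntermediateField.extendScalars hle := by
      rw [IntermediateField.adjoin_le_iff]
      rintro _ rfl
      exact hθC
    exact h2 h1
  · -- the forms
    have hform : ∀ r : F, (∀ (P : Place k F), Divisorial w P → ∀ D' : Fin w → Derivation k F F,
        (∀ i, DerReg P (D' i)) → P.Reg (r * ω 0 D' ^ B)) →
        ∃ η : (Fin w → Derivation k F F) → F, IsPluri (N0 * B) η ∧
          (∀ P : Place k F, Divisorial w P → RegAt P η) ∧ η E = r * ω 0 E ^ B := by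
      intro r hr
      refine ⟨fun D' => r * ω 0 D' ^ B, fun A D' => ?_, fun P hP D' hD' => hr P hP D' hD', rfl⟩
      simp only []
      rw [hω 0 A D', mul_pow, pow_mul]
      ring
    intro j
    apply hform
    intro P hP D' hD'
    have hu : P.Reg (ω 0 D') := hreg P hP 0 D' hD'
    have hφu : ∀ i, P.Reg (φ i * ω 0 D') := fun i => by
      rw [hφD]
      exact hreg P hP i.succ D' hD'
    refine Fin.cases ?_ (fun j => Fin.lastCases ?_ (fun i => ?_) j) j
    · rw [Fin.cons_zero, one_mul]
      exact reg_pow P hu B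
    · rw [Fin.cons_succ, Fin.snoc_last]
      exact hB P _ hu hφu
    · rw [Fin.cons_succ, Fin.snoc_castSucc]
      obtain ⟨B', rfl⟩ := Nat.exists_eq_succ_of_ne_zero hB0.ne'
      rw [pow_succ', ← mul_assoc]
      exact P.reg_mul (hφu i) (reg_pow P hu _)

end Pool.Agent.Q13.KO
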