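import Pool.Agent.Q13.KO.Rat
import Pool.Agent.Q13.KO.Big
import Pool.Agent.TH143.HE.Proj
import Pool.Agent.TH143.DE.Gen

/-!
Orbits of rational maps: the reduction to orbits of polynomial maps of affine spaces.
-/

set_option autoImplicit false

namespace Pool.Agent.Q13.KO

open MvPolynomial Filter Pool.Agent.TH143.DE Pool.Agent.TH143.HE Pool.Agent.TH143.TW
  Pool.Agent.TH143.GE Pool.Agent.TH143.GT Pool.Agent.W602.GT

variable {n r N : ℕ}

/-- The points `w m` are the images of the points `v m` under a rational map which is regular at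
the points `v m`: there are finitely many tuples `P l` of forms (of the same degree) such that
`w m` and the values of the `P l i` at `v m` are proportional, and for each `m` at least one of the
tuples does not vanish at `v m`. -/
def RatImage (v : ℕ → Fin (n + 1) → ℂ) (w : ℕ → Fin (r + 1) → ℂ) : Prop :=
  ∃ (s : ℕ) (d : Fin s → ℕ) (P : Fin s → Fin (r + 1) → MvPolynomial (Fin (n + 1)) ℂ),
    (∀ l i, (P l i).IsHomogeneous (d l)) ∧
    (∀ m l i j, eval (v m) (P l i) * w m j = eval (v m) (P l j) * w m i) ∧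
    ∀ m, ∃ l i, eval (v m) (P l i) ≠ 0

/-- avoiding countably many hyperplanes -/
theorem exists_coeffs {s : ℕ} (a : ℕ → Fin s → ℂ) (h : ∀ m, a m ≠ 0) :
    ∃ c : Fin s → ℂ, ∀ m, ∑ l, c l * a m l ≠ 0 := by
  cases s with
  | zero => exact absurd (funext fun i => i.elim0) (h 0)
  | succ s =>
    obtain ⟨c, hc⟩ := exists_linear a h
    exact ⟨fun j => c ^ (j : ℕ), hc⟩

/-- one tuple of forms suffices -/
theorem RatImage.one {v : ℕ → Fin (n + 1) → ℂ} {w : ℕ → Fin (r + 1) → ℂ} (hv : ∀ m, v m ≠ 0)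
    (hw : ∀ m, w m ≠ 0) (h : RatImage v w) :
    ∃ (D : ℕ) (T : Fin (r + 1) → MvPolynomial (Fin (n + 1)) ℂ) (b : ℕ → ℂ),
      (∀ i, (T i).IsHomogeneous D) ∧ (∀ m, b m ≠ 0) ∧
      ∀ m i, eval (v m) (T i) = b m * w m i := by
  classical
  obtain ⟨s, d, P, hP, hPw, hPv⟩ := h
  obtain ⟨c0, hc0⟩ := exists_linear v hv
  let ℓ : MvPolynomial (Fin (n + 1)) ℂ := ∑ j : Fin (n + 1), C (c0 ^ (j : ℕ)) * X j
  have hℓ : ℓ.IsHomogeneous 1 := by
    refine IsHomogeneous.sum _ _ _ fun j _ => ?_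
    have h2 := (isHomogeneous_C (Fin (n + 1)) (c0 ^ (j : ℕ))).mul (isHomogeneous_X ℂ j)
    rwa [zero_add] at h2
  have hℓx : ∀ m, eval (v m) ℓ ≠ 0 := fun m => by
    simp only [ℓ, map_sum, map_mul, eval_C, eval_X]
    exact hc0 m
  choose i0 hi0 using fun m => Function.ne_iff.1 (hw m)
  have hi0' : ∀ m, w m (i0 m) ≠ 0 := hi0
  obtain ⟨A, hA⟩ : ∃ A : ℕ → Fin s → ℂ, ∀ m l,
    A m l = eval (v m) (P l (i0 m)) / w m (i0 m) := ⟨_, fun _ _ => rfl⟩
  have hPA : ∀ m l i, eval (v m) (P l i) = A m l * w m i := by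
    intro m l i
    have h1 := hPw m l i (i0 m)
    rw [hA, div_mul_eq_mul_div, ← h1, mul_div_cancel_right₀ _ (hi0' m)]
  obtain ⟨D, hD⟩ : ∃ D, D = ∑ l, d l := ⟨_, rfl⟩
  have hdD : ∀ l, d l ≤ D := fun l => by
    rw [hD]
    exact Finset.single_le_sum (f := d) (fun _ _ => Nat.zero_le _) (Finset.mem_univ l)
  obtain ⟨c, hc⟩ := exists_coeffs (fun m l => eval (v m) ℓ ^ (D - d l) * A m l) (by
    intro m h0
    obtain ⟨l, i, h1⟩ := hPv m
    apply h1
    have h2 := congrFun h0 l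
    change eval (v m) ℓ ^ (D - d l) * A m l = 0 at h2
    rw [hPA, (mul_eq_zero.1 h2).resolve_left (pow_ne_zero _ (hℓx m)), zero_mul])
  refine ⟨D, fun i => ∑ l, C (c l) * (ℓ ^ (D - d l) * P l i),
    fun m => ∑ l, c l * (eval (v m) ℓ ^ (D - d l) * A m l), fun i => ?_, hc, fun m i => ?_⟩
  · refine IsHomogeneous.sum _ _ _ fun l _ => ?_
    have h2 := (isHomogeneous_C (Fin (n + 1)) (c l)).mul ((hℓ.pow (D - d l)).mul (hP l i))
    rwa [zero_add, one_mul, Nat.sub_add_cancel (hdD l)] at h2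
  · rw [map_sum, Finset.sum_mul]
    refine Finset.sum_congr rfl fun l _ => ?_
    rw [map_mul, map_mul, map_pow, eval_C, hPA]
    ring

theorem eval_scale {ι : Type} [Fintype ι] {G : MvPolynomial ι ℂ} {d : ℕ} (hG : G.IsHomogeneous d)
    {x x' : ι → ℂ} {c : ℂ} (h : ∀ j, x' j = c * x j) : eval x' G = c ^ d * eval x G := by
  have h1 : x' = fun j => c * x j := funext h
  rw [h1, ← MvPolynomial.aeval_eq_eval, ← MvPolynomial.aeval_eq_eval]
  exact aeval_scale_hom hG x c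

/-- the germs of the values of polynomials -/
theorem gg_eval (u : ℕ → Fin (n + 1) → ℂ) (G : MvPolynomial (Fin (n + 1)) ℂ) :
    gg (fun m => eval (u m) G) = aeval (fun i => gg fun m => u m i) G := by
  have h5 := MvPolynomial.comp_aeval_apply (f := fun j => (fun m => u m j : ℕ → ℂ)) gg G
  rw [← h5]
  congr 1
  funext m
  have h7 := MvPolynomial.comp_aeval_apply (f := fun j => (fun m => u m j : ℕ → ℂ))
    (Pi.evalAlgHom ℂ (fun _ : ℕ => ℂ) m) G
  have h8 : (aeval (fun j => (fun m => u m j : ℕ → ℂ)) G : ℕ → ℂ) m =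
    aeval (fun i => u m i) G := h7
  rw [h8, MvPolynomial.aeval_eq_eval]

/-- the images of an orbit of a rational map under a rational map -/
theorem exists_orbit_rat {v : ℕ → Fin (n + 1) → ℂ} {x : ℕ → Fin (N + 1) → ℂ}
    (hv : ∀ m, v m ≠ 0) (hx : ∀ m, x m ≠ 0) (hT : RatImage v fun m => v (m + 1))
    (hU : RatImage v x) :
    ∃ (V : Fin (n + 1) → GG) (x' : ℕ → Fin (N + 1) → ℂ) (κ : ℕ → ℂ), Stable V ∧ Rel V x' ∧
      (∀ m, κ m ≠ 0) ∧ ∀ m j, x' m j = κ m * x m j := by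
  obtain ⟨D, T, b, hTh, hb, hTb⟩ := hT.one hv fun m => hv (m + 1)
  obtain ⟨E, U, c, hUh, hc, hUc⟩ := hU.one hv hx
  let u : ℕ → Fin (n + 1) → ℂ := fun m => Nat.rec (v 0) (fun _ y i => eval y (T i)) m
  have hu : ∀ m, ∃ ν : ℂ, ν ≠ 0 ∧ ∀ i, u m i = ν * v m i := by
    intro m
    induction m with
    | zero => exact ⟨1, one_ne_zero, fun i => (one_mul _).symm⟩
    | succ m ih =>
      obtain ⟨ν, hν, h1⟩ := ih
      refine ⟨ν ^ D * b m, mul_ne_zero (pow_ne_zero _ hν) (hb m), fun i => ?_⟩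
      change eval (u m) (T i) = _
      rw [eval_scale (hTh i) h1, hTb, mul_assoc]
  choose ν hν huν using hu
  refine ⟨fun i => gg fun m => u m i, fun m j => eval (u m) (U j), fun m => ν m ^ E * c m,
    fun i => ?_, fun j => ?_, fun m => mul_ne_zero (pow_ne_zero _ (hν m)) (hc m), fun m j => ?_⟩
  · rw [shG_gg]
    change gg (fun m => eval (u m) (T i)) ∈ _
    rw [gg_eval]
    exact AA_le _ (mem_AA.2 ⟨_, rfl⟩)
  · rw [gg_eval]
    exact mem_AA.2 ⟨_, rfl⟩
  · change eval (u m) (U j) = ν m ^ E * c m * x m j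
    rw [eval_scale (hUh j) (huν m), hUc, mul_assoc]

theorem per_scale {x x' : ℕ → Fin (N + 1) → ℂ} {κ : ℕ → ℂ} (hκ : ∀ m, κ m ≠ 0)
    (h : ∀ m j, x' m j = κ m * x m j) (hp : Per x') : Per x := by
  obtain ⟨k, m0, hk, hp⟩ := hp
  refine ⟨k, m0, hk, fun m hm i j => ?_⟩
  have h1 := hp m hm i j
  rw [h, h, h, h] at h1
  apply mul_left_cancel₀ (mul_ne_zero (hκ (m + k)) (hκ m))
  linear_combination h1

theorem tail_scale {p : Ideal (MvPolynomial (Fin (N + 1)) ℂ)} {x x' : ℕ → Fin (N + 1) → ℂ}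
    {κ : ℕ → ℂ} (hκ : ∀ m, κ m ≠ 0) (h : ∀ m j, x' m j = κ m * x m j) (hp : TailDense p x) :
    TailDense p x' := by
  rintro H ⟨e, hH⟩ hz
  refine hp H ⟨e, hH⟩ ?_
  filter_upwards [hz] with m hm
  rw [eval_scale hH (h m)] at hm
  exact (mul_eq_zero.1 hm).resolve_left (pow_ne_zero _ (hκ m))

theorem pt_scale {R : Type} [CommRing R] {φ : R →+* ℂ} {J : Ideal (MvPolynomial (Fin (N + 1)) R)}
    {x x' : Fin (N + 1) → ℂ} {c : ℂ} (hc : c ≠ 0) (h : ∀ j, x' j = c * x j) :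
    IsPtP φ J x' ↔ IsPtP φ J x := by
  have h1 : ∀ (G : MvPolynomial (Fin (N + 1)) R) (d : ℕ), G.IsHomogeneous d →
      eval₂ φ x' G = c ^ d * eval₂ φ x G := by
    intro G d hG
    rw [← eval_map, ← eval_map]
    exact eval_scale (hG.map φ) h
  constructor
  · intro h2 G hG hGh
    have h3 := h2 G hG hGh
    obtain ⟨d, hd⟩ := hGh
    rw [h1 G d hd] at h3
    exact (mul_eq_zero.1 h3).resolve_left (pow_ne_zero _ hc)
  · intro h2 G hG hGh
    have h3 := h2 G hG hGh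
    obtain ⟨d, hd⟩ := hGh
    rw [h1 G d hd, h3, mul_zero]

end Pool.Agent.Q13.KO
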