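import Pool.Agent.Q13.KO.Rat
import Pool.Agent.TH143.GE.Tow1

/-!
Linear recurrences over finitely generated fields of sequences are orbits.
-/

set_option autoImplicit false

namespace Pool.Agent.Q13.KO

open MvPolynomial Filter Pool.Agent.TH143.DE Pool.Agent.TH143.HE Pool.Agent.TH143.TW
  Pool.Agent.TH143.GE

variable {N : ℕ} {B : Subalgebra ℂ (ℕ → ℂ)}

theorem exists_orbit_lin (hB : CoefField B) (hfg : FinGen B) {x : ℕ → Fin (N + 1) → ℂ}
    (hx : ∀ j, LinRec B fun m => x m j) :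
    ∃ (n : ℕ) (v : Fin n → GG), Stable v ∧ Rel v x := by
  classical
  obtain ⟨U, hU, hUB, hgen⟩ := hfg
  obtain ⟨W, hWfg, -, hTW, hWst⟩ := LF.family (shK hB) (shG_alg hB)
    (T := Set.range fun j => gg fun m => x m j) (Set.finite_range _) (by
    rintro _ ⟨j, rfl⟩
    exact LF_of_linRec hB (hx j))
  obtain ⟨G0, hG0⟩ := hWfg
  let E : Set GG := gg '' U ∪ (G0 : Set GG) ∪ Set.range fun j => gg fun m => x m j
  have hE : E.Finite := ((hU.image _).union G0.finite_toSet).union (Set.finite_range _)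
  let e := hE.toFinset.equivFin
  let v : Fin hE.toFinset.card → GG := fun i => (e.symm i : GG)
  have hrange : Set.range v = E := by
    ext z
    constructor
    · rintro ⟨i, rfl⟩
      exact hE.mem_toFinset.1 (e.symm i).2
    · intro hz
      exact ⟨e ⟨z, hE.mem_toFinset.2 hz⟩, by simp [v]⟩
  have hEA : ∀ z ∈ E, z ∈ AA v := fun z hz => Algebra.subset_adjoin (by rw [hrange]; exact hz)
  have hUA : ∀ p ∈ Algebra.adjoin ℂ U, gg p ∈ AA v := by
    intro p hp
    have h1 : gg p ∈ (Algebra.adjoin ℂ U).map gg := ⟨p, hp, rfl⟩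
    rw [AlgHom.map_adjoin] at h1
    refine Algebra.adjoin_mono ?_ h1
    rw [hrange]
    exact fun z hz => Or.inl (Or.inl hz)
  have hBS : ∀ b ∈ B, gg b ∈ SS v := by
    intro b hb
    obtain ⟨p, hp, q, hq, hq0, hpq⟩ := hgen b hb
    refine ⟨gg p, hUA p hp, gg q, hUA q hq, ne_unit hq0, ?_⟩
    rw [← map_mul, gg_eq]
    exact hpq
  have hcS : ∀ c : KB B hB, algebraMap (KB B hB) GG c ∈ SS v := by
    intro c
    obtain ⟨b, rfl⟩ := cK_surj hB c
    rw [alg_cK]
    exact hBS b b.2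
  have hWS : ∀ z ∈ W, z ∈ SS v := by
    intro z hz
    rw [← hG0] at hz
    induction hz using Submodule.span_induction with
    | mem x hx => exact AA_le v (hEA x (Or.inl (Or.inr hx)))
    | zero => exact (SS v).zero_mem
    | add x y _ _ hx hy => exact (SS v).add_mem hx hy
    | smul c x _ hx =>
      rw [Algebra.smul_def]
      exact (SS v).mul_mem (hcS c) hx
  refine ⟨_, v, fun i => ?_, fun j => hEA _ (Or.inr ⟨j, rfl⟩)⟩
  have hi : v i ∈ E := by
    rw [← hrange]
    exact ⟨i, rfl⟩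
  rcases hi with (⟨u, hu, hui⟩ | hi) | ⟨j, hj⟩
  · rw [← hui, shG_gg]
    exact hBS _ (hB.shift u (hUB hu))
  · exact hWS _ (hWst _ (by rw [← hG0]; exact Submodule.subset_span hi))
  · rw [← hj]
    exact hWS _ (hWst _ (hTW ⟨j, rfl⟩))

end Pool.Agent.Q13.KO
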