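import Pool.Agent.Q13.KO.Dom
import Pool.Agent.TH143.DE.Rat
import Pool.Agent.TH143.DE.Gen
import Pool.Agent.TH143.GE.Base

/-!
Sequences of points given by orbits of rational maps, on varieties of general type.
-/

set_option autoImplicit false

namespace Pool.Agent.Q13.KO

open MvPolynomial Filter Pool.Agent.TH143.DE Pool.Agent.TH143.HE Pool.Agent.TH143.TW
  Pool.Agent.TH143.GE Pool.Agent.TH143.GT Pool.Agent.W602.GT

variable {n N : ℕ} {R : Type} [CommRing R]

/-- All subvarieties of positive dimension of the variety given by the forms in `I` which are not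
contained in the variety given by `I'` are of general type. The subvarieties are given by their
function fields `F` and their generic points `y`. -/
def SubGT (φ : R →+* ℂ) (I I' : Ideal (MvPolynomial (Fin (N + 1)) R)) : Prop :=
  ∀ (F : Type) [Field F] [Algebra ℂ F] (w : ℕ) (y : Fin (N + 1) → F), y ≠ 0 → coords ℂ y = ⊤ →
    Algebra.trdeg ℂ F = w → 0 < w → IsPtP ((algebraMap ℂ F).comp φ) I y →
    ¬ IsPtP ((algebraMap ℂ F).comp φ) I' y → GeneralType ℂ F w

theorem eval₂_map_eq {φ : R →+* ℂ} {K : Type} [Field K] [Algebra ℂ K] (y : Fin (N + 1) → K)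
    (G : MvPolynomial (Fin (N + 1)) R) :
    eval₂ ((algebraMap ℂ K).comp φ) y G = aeval y (MvPolynomial.map φ G) := by
  rw [aeval_def, eval₂_map]

/-- finitely many forms suffice -/
theorem ev_all {φ : R →+* ℂ} {I : Ideal (MvPolynomial (Fin (N + 1)) R)}
    {x : ℕ → Fin (N + 1) → ℂ}
    (h : ∀ G ∈ I, (∃ d, G.IsHomogeneous d) → ∀ᶠ m in atTop, eval (x m) (MvPolynomial.map φ G) = 0) :
    ∀ᶠ m in atTop, IsPtP φ I (x m) := by
  classical
  let S : Set (MvPolynomial (Fin (N + 1)) ℂ) :=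
    {G | ∃ G0 ∈ I, (∃ d, G0.IsHomogeneous d) ∧ G = MvPolynomial.map φ G0}
  obtain ⟨T, hTS, hT⟩ := (Submodule.fg_span_iff_fg_span_finset_subset S).1
    (IsNoetherian.noetherian (Submodule.span (MvPolynomial (Fin (N + 1)) ℂ) S))
  have h1 : ∀ᶠ m in atTop, ∀ G ∈ T, eval (x m) G = 0 := by
    rw [Finset.eventually_all]
    intro G hG
    obtain ⟨G0, hG0, hG0h, rfl⟩ := hTS hG
    exact h G0 hG0 hG0h
  filter_upwards [h1] with m hm
  intro G hG hGh
  have h2 : Submodule.span (MvPolynomial (Fin (N + 1)) ℂ) S ≤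
      RingHom.ker (eval (x m) : MvPolynomial (Fin (N + 1)) ℂ →+* ℂ) := by
    rw [hT]
    exact Submodule.span_le.2 fun G hG => hm G hG
  have h3 := h2 (Submodule.subset_span ⟨G, hG, hGh, rfl⟩)
  rw [RingHom.mem_ker, eval_map] at h3
  exact h3

theorem coe_scale {K : Type} [Field K] [Algebra ℂ K] {F : IntermediateField ℂ K}
    {y : Fin (N + 1) → F} {Y : Fin (N + 1) → K} {c : K} (hY : ∀ j, Y j = c * (y j : K))
    {G : MvPolynomial (Fin (N + 1)) ℂ} {d : ℕ} (hG : G.IsHomogeneous d) :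
    aeval Y G = c ^ d * ((aeval y G : F) : K) := by
  have h1 : Y = fun j => c * (y j : K) := funext hY
  rw [h1, aeval_scale_hom hG]
  congr 1
  exact (MvPolynomial.comp_aeval_apply (f := y) F.val G).symm

/-- **Eventual periodicity.** -/
theorem per_sub {φ : R →+* ℂ} {I I' : Ideal (MvPolynomial (Fin (N + 1)) R)} (h : SubGT φ I I')
    (v : Fin n → GG) (x : ℕ → Fin (N + 1) → ℂ) (hv : Stable v) (hx : Rel v x) :
    (∀ᶠ m in atTop, x m ≠ 0) → (∀ᶠ m in atTop, IsPtP φ I (x m)) →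
    (∀ᶠ m in atTop, ¬ IsPtP φ I' (x m)) → Per x := by
  refine noeth (fun _ x => (∀ᶠ m in atTop, x m ≠ 0) → (∀ᶠ m in atTop, IsPtP φ I (x m)) →
    (∀ᶠ m in atTop, ¬ IsPtP φ I' (x m)) → Per x) ?_ ?_ v x hv hx
  · clear hv hx
    intro v x hv hd hx hne hX hZ
    obtain ⟨K, _, _, _, f, σ, hf, hs⟩ := exists_field hv hd
    have hz := aeval_zero hf hx
    obtain ⟨Y, hY⟩ : ∃ Y : Fin (N + 1) → K, Y = fun j => f ⟨_, AA_le v (hx j)⟩ := ⟨_, rfl⟩
    rw [← hY] at hz
    have hY0 : Y ≠ 0 := by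
      intro h0
      have h1 : ∀ j, ∀ᶠ m in atTop, x m j = 0 := by
        intro j
        have h2 := (hz (X j)).1 (by rw [aeval_X, h0, Pi.zero_apply])
        simpa only [eval_X] using h2
      obtain ⟨m, h2, h3⟩ := ((eventually_all.2 h1).and hne).exists
      exact h3 (funext h2)
    obtain ⟨F, y, c, hy0, hgen, hc, hyY⟩ := exists_sub Y hY0
    have hess : Algebra.EssFiniteType ℂ F := ess_of_coords hgen
    obtain ⟨w, hw⟩ : ∃ w : ℕ, Algebra.trdeg ℂ F = w := Cardinal.lt_aleph0.1 (trdeg_lt_aleph0 ℂ F)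
    have hval : ∀ G : MvPolynomial (Fin (N + 1)) ℂ, (∃ d, G.IsHomogeneous d) →
        (aeval y G = 0 ↔ ∀ᶠ m in atTop, eval (x m) G = 0) := by
      rintro G ⟨d, hG⟩
      rw [← hz, coe_scale hyY hG]
      constructor
      · intro h0
        rw [h0]
        exact mul_zero _
      · intro h0
        exact Subtype.ext ((mul_eq_zero.1 h0).resolve_left (pow_ne_zero _ hc))
    have hper : ∃ k, 0 < k ∧ ∀ z : F, (σ ^ k) (F.val z) = F.val z := by
      rcases Nat.eq_zero_or_pos w with hw0 | hw0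
      · refine ⟨1, one_pos, fun z => ?_⟩
        have h1 : Algebra.IsAlgebraic ℂ F := by
          rw [← _root_.trdeg_eq_zero_iff, hw, hw0]
          simp
        have h3 : IsAlgebraic ℂ z := h1.isAlgebraic z
        have h4 := IsAlgClosed.degree_eq_one_of_irreducible ℂ (minpoly.irreducible h3.isIntegral)
        obtain ⟨a, ha⟩ := minpoly.mem_range_of_degree_eq_one ℂ _ h4
        rw [← ha, AlgHom.commutes, AlgHom.commutes]
      · refine ko hw0 (h F w y hy0 hgen hw hw0 ?_ ?_) σ F.val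
        · intro G hG hGh
          rw [eval₂_map_eq, hval _ (by obtain ⟨d, hd⟩ := hGh; exact ⟨d, hd.map φ⟩)]
          filter_upwards [hX] with m hm
          rw [eval_map]
          exact hm G hG hGh
        · intro hcon
          have h1 : ∀ᶠ m in atTop, IsPtP φ I' (x m) := by
            refine ev_all fun G hG hGh => ?_
            rw [← hval _ (by obtain ⟨d, hd⟩ := hGh; exact ⟨d, hd.map φ⟩), ← eval₂_map_eq]
            exact hcon G hG hGh
          obtain ⟨m, h2, h3⟩ := (h1.and hZ).exists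
          exact h3 h2
    obtain ⟨k, hk, hper⟩ := hper
    refine per_of_ko hf (fun z _ => hs z) hv hx F.val y c (fun j => ?_) hk hper
    have h1 := hyY j
    rw [hY] at h1
    exact h1
  · clear hv hx
    intro v x hv hx M hM ih hne hX hZ
    exact per_of_classes hne hM fun a => ih a (ev_res hne hM) (ev_res hX hM) (ev_res hZ hM)

section dense

variable {p : Ideal (MvPolynomial (Fin (N + 1)) ℂ)} {F : Type} [Field F] [Algebra ℂ F] {w : ℕ}
  {y : Fin (N + 1) → F}

theorem prod_mem {Q : MvPolynomial (Fin (N + 1)) ℂ} (hy : FunField p Q F w y) {ι : Type}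
    (s : Finset ι) {H : ι → MvPolynomial (Fin (N + 1)) ℂ} (hH : ∀ i, IsForm (H i))
    (h : ∏ i ∈ s, H i ∈ p) : ∃ i ∈ s, H i ∈ p := by
  have h2 := hy.sub.mem _ h
  unfold W602.GT.val at h2
  rw [map_prod, Finset.prod_eq_zero_iff] at h2
  obtain ⟨i, hi, h3⟩ := h2
  exact ⟨i, hi, hy.mem _ (hH i) h3⟩

theorem prod_form {ι : Type} (s : Finset ι) {H : ι → MvPolynomial (Fin (N + 1)) ℂ}
    (hH : ∀ i, IsForm (H i)) : IsForm (∏ i ∈ s, H i) := by
  choose d hd using hH
  exact ⟨∑ i ∈ s, d i, IsHomogeneous.prod _ _ _ fun i _ => hd i⟩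

/-- one of the arithmetic progressions is dense -/
theorem dense_split {Q : MvPolynomial (Fin (N + 1)) ℂ} (hy : FunField p Q F w y)
    {x : ℕ → Fin (N + 1) → ℂ} (h : TailDense p x) {M : ℕ} (hM : 0 < M) :
    ∃ b, TailDense p fun m => x (b + M * m) := by
  by_contra hcon
  push Not at hcon
  unfold TailDense at hcon
  push Not at hcon
  choose H hH hz hHp using hcon
  have h1 : ∏ b ∈ Finset.range M, H b ∈ p := by
    refine h _ (prod_form _ hH) ?_
    have h2 : ∀ᶠ m in atTop, ∀ b ∈ Finset.range M, eval (x (b + M * m)) (H b) = 0 := by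
      rw [Finset.eventually_all]
      exact fun b _ => hz b
    obtain ⟨m0, hm0⟩ := eventually_atTop.1 h2
    refine eventually_atTop.2 ⟨M * m0, fun m hm => ?_⟩
    rw [map_prod]
    refine Finset.prod_eq_zero (Finset.mem_range.2 (Nat.mod_lt m hM)) ?_
    have h3 := hm0 (m / M) ((Nat.le_div_iff_mul_le hM).2 (by rw [Nat.mul_comm]; exact hm)) (m % M)
      (Finset.mem_range.2 (Nat.mod_lt m hM))
    rwa [Nat.mod_add_div] at h3
  obtain ⟨b, -, hb⟩ := prod_mem hy _ hH h1
  exact hHp b hb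

/-- periodic sequences are not dense -/
theorem not_dense_per (hy : FunField p 1 F w y) (hw : 0 < w) {x : ℕ → Fin (N + 1) → ℂ}
    (hne : ∀ᶠ m in atTop, x m ≠ 0) (h : TailDense p x) (hper : Per x) : False := by
  obtain ⟨k, m0, hk, hper⟩ := hper
  obtain ⟨m1, hm1⟩ := eventually_atTop.1 hne
  obtain ⟨b, hb⟩ := dense_split hy h hk
  obtain ⟨t, ht⟩ : ∃ t, t = m0 + m1 := ⟨_, rfl⟩
  obtain ⟨ℓ, hℓ, hℓy, hℓx⟩ := exists_line hy hw (x (b + k * t))
  apply hℓy
  refine hy.sub.mem ℓ (hb ℓ ⟨1, hℓ⟩ ?_)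
  refine eventually_atTop.2 ⟨t, fun m hm => ?_⟩
  have hkt : 1 * t ≤ k * t := Nat.mul_le_mul_right t hk
  have h1 := per_mul (x := x) (k := k) (m0 := t) (fun m hm => hm1 m (by omega))
    (fun m hm => hper m (by omega)) (m - t) (b + k * t) (by omega)
  have h2 : b + k * t + k * (m - t) = b + k * m := by
    obtain ⟨r, rfl⟩ := Nat.exists_eq_add_of_le hm
    rw [Nat.add_sub_cancel_left]
    ring
  rw [h2] at h1
  obtain ⟨i, hi⟩ := Function.ne_iff.1 (hm1 (b + k * t) (by omega))
  have hi' : x (b + k * t) i ≠ 0 := hi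
  have h3 : x (b + k * m) = fun j => x (b + k * m) i / x (b + k * t) i * x (b + k * t) j := by
    funext j
    have h4 := h1 j i
    field_simp
    linear_combination h4
  have h4 := aeval_scale_hom (R := ℂ) (F := ℂ) hℓ (x (b + k * t))
    (x (b + k * m) i / x (b + k * t) i)
  rw [MvPolynomial.aeval_eq_eval, MvPolynomial.aeval_eq_eval, hℓx, mul_zero, ← h3] at h4
  exact h4

/-- **Orbits are not dense** in varieties of general type. -/
theorem not_dense (hy : FunField p 1 F w y) (hw : 0 < w) (hGT : GeneralType ℂ F w)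
    (v : Fin n → GG) (x : ℕ → Fin (N + 1) → ℂ) (hv : Stable v) (hx : Rel v x) :
    (∀ᶠ m in atTop, x m ≠ 0) → (∀ᶠ m in atTop, ∀ H ∈ p, eval (x m) H = 0) →
    ¬ TailDense p x := by
  refine noeth (fun _ x => (∀ᶠ m in atTop, x m ≠ 0) →
    (∀ᶠ m in atTop, ∀ H ∈ p, eval (x m) H = 0) → ¬ TailDense p x) ?_ ?_ v x hv hx
  · clear hv hx
    intro v x hv hd hx hne hX hden
    obtain ⟨K, _, _, _, f, σ, hf, hs⟩ := exists_field hv hd
    have hz := aeval_zero hf hx
    obtain ⟨Y, hY⟩ : ∃ Y : Fin (N + 1) → K, Y = fun j => f ⟨_, AA_le v (hx j)⟩ := ⟨_, rfl⟩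
    rw [← hY] at hz
    have hyz : ∀ G : MvPolynomial (Fin (N + 1)) ℂ, IsForm G →
        (W602.GT.val y G = 0 ↔ W602.GT.val Y G = 0) := by
      intro G hG
      have h1 : W602.GT.val Y G = 0 ↔ ∀ᶠ m in atTop, eval (x m) G = 0 := hz G
      rw [h1]
      constructor
      · intro h0
        filter_upwards [hX] with m hm
        exact hm G (hy.mem G hG h0)
      · intro h0
        exact hy.sub.mem G (hden G hG h0)
    obtain ⟨i0, hi0⟩ := Function.ne_iff.1 hy.sub.ne
    have hi0' : y i0 ≠ 0 := hi0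
    have hYi : Y i0 ≠ 0 := by
      intro h0
      apply hi0'
      have h1 := (hyz (X i0) ⟨1, isHomogeneous_X _ _⟩).2 (by
        unfold W602.GT.val
        rw [aeval_X]
        exact h0)
      unfold W602.GT.val at h1
      rwa [aeval_X] at h1
    obtain ⟨ι, hι⟩ := exists_embedding hi0' hYi hy.sub.gen hyz
    have hess : Algebra.EssFiniteType ℂ F := ess_of_coords hy.sub.gen
    obtain ⟨k, hk, hper⟩ := ko hw hGT σ ι
    refine not_dense_per hy hw hne hden ?_
    refine per_of_ko hf (fun z _ => hs z) hv hx ι (fun j => y j / y i0) (Y i0) (fun j => ?_) hk hper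
    rw [hι, mul_div_cancel₀ _ hYi, hY]
  · clear hv hx
    intro v x hv hx M hM ih hne hX hden
    obtain ⟨b, hb⟩ := dense_split hy hden hM
    exact ih b (ev_res hne hM) (ev_res hX hM) hb

end dense

end Pool.Agent.Q13.KO
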