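import Mathlib

/-!
The generic values of differential forms, and their transformation under an endomorphism of the
field.
-/

set_option autoImplicit false
set_option linter.unusedSectionVars false

open MvPolynomial

namespace Pool.Agent.Q13.KO

variable {k K : Type} [Field k] [CharZero k] [Field K] [Algebra k K]

/-- A map which satisfies the product rule along `φ` and vanishes on a transcendence basis is
zero. -/
theorem chain_zero {R : Type} [CommRing R] [IsDomain R] (φ : K →+* R) (δ : K → R)
    (hadd : ∀ y z, δ (y + z) = δ y + δ z) (hmul : ∀ y z, δ (y * z) = φ y * δ z + φ z * δ y)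
    (hc : ∀ c : k, δ (algebraMap k K c) = 0) {d : ℕ} {Z : Fin d → K}
    (hZ : IsTranscendenceBasis k Z) (h : ∀ l, δ (Z l) = 0) (y : K) : δ y = 0 := by
  classical
  have hφ : ∀ x, x ≠ 0 → φ x ≠ 0 := fun x hx => (map_ne_zero φ).2 hx
  have h0 : δ 0 = 0 := by
    have := hc 0
    rwa [map_zero] at this
  have h1 : δ 1 = 0 := by
    have := hc 1
    rwa [map_one] at this
  have hneg : ∀ x, δ (-x) = - δ x := by
    intro x
    have := hadd x (-x)
    rw [add_neg_cancel, h0] at this
    exact (neg_eq_of_add_eq_zero_right this.symm).symm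
  let E : IntermediateField k K :=
    { carrier := {x | δ x = 0}
      mul_mem' := by
        intro a b ha hb
        change δ (a * b) = 0
        rw [hmul, show δ a = 0 from ha, show δ b = 0 from hb, mul_zero, mul_zero, add_zero]
      one_mem' := h1
      add_mem' := by
        intro a b ha hb
        change δ (a + b) = 0
        rw [hadd, show δ a = 0 from ha, show δ b = 0 from hb, add_zero]
      zero_mem' := h0
      algebraMap_mem' := hc
      inv_mem' := by
        intro a ha
        change δ a⁻¹ = 0
        by_cases ha0 : a = 0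
        · rw [ha0, inv_zero, h0]
        have h2 := hmul a a⁻¹
        rw [mul_inv_cancel₀ ha0, h1, show δ a = 0 from ha, mul_zero, add_zero] at h2
        exact (mul_eq_zero.1 h2.symm).resolve_left (hφ a ha0) }
  have hZE : ∀ l, Z l ∈ E := h
  have halg : Algebra.IsAlgebraic E K := by
    have h2 := hZ.isAlgebraic
    have h3 : Algebra.adjoin k (Set.range Z) ≤ E.toSubalgebra := by
      rw [Algebra.adjoin_le_iff]
      rintro _ ⟨l, rfl⟩
      exact hZE l
    refine ⟨fun x => ?_⟩
    obtain ⟨p, hp, hpx⟩ := h2.isAlgebraic x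
    let j : Algebra.adjoin k (Set.range Z) →+* E := Subalgebra.inclusion h3
    have hj : Function.Injective j := Subalgebra.inclusion_injective h3
    refine ⟨p.map j, (Polynomial.map_ne_zero_iff hj).2 hp, ?_⟩
    rw [Polynomial.aeval_def, Polynomial.eval₂_map]
    exact hpx
  -- the derivative of a polynomial
  have hpoly : ∀ Q : Polynomial E, δ (Polynomial.aeval y Q) =
      φ (Polynomial.aeval y (Polynomial.derivative Q)) * δ y := by
    intro Q
    induction Q using Polynomial.induction_on' with
    | add p q hp hq =>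
      rw [map_add, hadd, hp, hq, Polynomial.derivative_add, map_add, map_add, add_mul]
    | monomial n a =>
      have hpow : ∀ n : ℕ, δ (y ^ n) = φ ((n : K) * y ^ (n - 1)) * δ y := by
        intro n
        induction n with
        | zero => rw [pow_zero, h1, Nat.cast_zero, zero_mul, map_zero, zero_mul]
        | succ n ih =>
          rw [pow_succ, hmul, ih, Nat.add_sub_cancel]
          rcases Nat.eq_zero_or_pos n with rfl | hn
          · simp
          · obtain ⟨r, rfl⟩ := Nat.exists_eq_succ_of_ne_zero hn.ne'
            simp only [Nat.succ_eq_add_one, Nat.add_sub_cancel, map_mul, map_pow, map_natCast]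
            push_cast
            ring
      have ha : δ (a : K) = 0 := a.2
      rw [Polynomial.aeval_monomial, Polynomial.derivative_monomial, Polynomial.aeval_monomial,
        hmul]
      change φ (a : K) * δ (y ^ n) + φ (y ^ n) * δ (a : K) = _
      rw [ha, mul_zero, add_zero, hpow, map_mul (algebraMap E K), map_natCast]
      change φ (a : K) * (φ (_) * δ y) = φ ((a : K) * _ * _) * δ y
      simp only [map_mul]
      ring
  have hCZ : CharZero E := charZero_of_injective_algebraMap (algebraMap k E).injective
  have hint := (halg.isAlgebraic y).isIntegral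
  have hsep : (minpoly E y).Separable := (minpoly.irreducible hint).separable
  have hder := hsep.aeval_derivative_ne_zero (minpoly.aeval E y)
  have h2 := hpoly (minpoly E y)
  rw [minpoly.aeval, h0] at h2
  exact (mul_eq_zero.1 h2.symm).resolve_left (hφ _ hder)

variable {d w : ℕ} {Z : Fin d → K} {dd : Fin d → Derivation k K K}

theorem chain_rule {R : Type} [CommRing R] [IsDomain R] (φ : K →+* R) (δ : K → R)
    (hadd : ∀ y z, δ (y + z) = δ y + δ z) (hmul : ∀ y z, δ (y * z) = φ y * δ z + φ z * δ y)
    (hc : ∀ c : k, δ (algebraMap k K c) = 0)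
    (hZ : IsTranscendenceBasis k Z) (hdd : ∀ i j, dd i (Z j) = if i = j then 1 else 0) (y : K) :
    δ y = ∑ l, δ (Z l) * φ (dd l y) := by
  classical
  have h1 := chain_zero (k := k) φ (fun y => δ y - ∑ l, δ (Z l) * φ (dd l y)) (fun y z => by
      simp only [hadd, map_add, mul_add, Finset.sum_add_distrib]
      ring) (fun y z => by
      simp only [hmul, Derivation.leibniz, smul_eq_mul, map_add, map_mul, mul_add,
        Finset.sum_add_distrib]
      rw [show ∑ l, δ (Z l) * (φ y * φ (dd l z)) = φ y * ∑ l, δ (Z l) * φ (dd l z) from by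
          rw [Finset.mul_sum]; exact Finset.sum_congr rfl fun l _ => by ring,
        show ∑ l, δ (Z l) * (φ z * φ (dd l y)) = φ z * ∑ l, δ (Z l) * φ (dd l y) from by
          rw [Finset.mul_sum]; exact Finset.sum_congr rfl fun l _ => by ring]
      ring) (fun c => by
      simp only [hc, Derivation.map_algebraMap, map_zero, mul_zero, Finset.sum_const_zero,
        sub_zero]) hZ (fun l => by
      change δ (Z l) - ∑ l', δ (Z l') * φ (dd l' (Z l)) = 0
      rw [Finset.sum_eq_single l]
      · rw [hdd, if_pos rfl, map_one, mul_one, sub_self]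
      · intro b _ hb
        rw [hdd, if_neg hb, map_zero, mul_zero]
      · intro hl
        exact absurd (Finset.mem_univ _) hl) y
  exact sub_eq_zero.1 h1

/-- the generic derivations -/
noncomputable def gd (dd : Fin d → Derivation k K K) (i : Fin w) (y : K) :
    MvPolynomial (Fin w × Fin d) K := ∑ l, X (i, l) * C (dd l y)

theorem gd_add (i : Fin w) (y z : K) : gd dd i (y + z) = gd dd i y + gd dd i z := by
  simp only [gd, map_add, mul_add, Finset.sum_add_distrib]

theorem gd_mul (i : Fin w) (y z : K) :
    gd dd i (y * z) = C y * gd dd i z + C z * gd dd i y := by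
  simp only [gd, Derivation.leibniz, smul_eq_mul, map_add, map_mul, mul_add,
    Finset.sum_add_distrib, Finset.mul_sum]
  congr 1
  · exact Finset.sum_congr rfl fun l _ => by ring
  · exact Finset.sum_congr rfl fun l _ => by ring

theorem gd_const (i : Fin w) (c : k) : gd dd i (algebraMap k K c) = 0 := by
  simp only [gd, Derivation.map_algebraMap, map_zero, mul_zero, Finset.sum_const_zero]

/-- the transformation of the generic values under `σ` -/
noncomputable def TT (dd : Fin d → Derivation k K K) (Z : Fin d → K) (σ : K →ₐ[k] K) :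
    MvPolynomial (Fin w × Fin d) K →+* MvPolynomial (Fin w × Fin d) K :=
  eval₂Hom ((C : K →+* MvPolynomial (Fin w × Fin d) K).comp (σ : K →+* K))
    fun p => gd dd p.1 (σ (Z p.2))

theorem TT_C (σ : K →ₐ[k] K) (c : K) :
    TT (w := w) dd Z σ (C c) = C (σ c) := by
  unfold TT
  rw [coe_eval₂Hom, eval₂_C]
  rfl

theorem TT_X (σ : K →ₐ[k] K) (i : Fin w) (l : Fin d) :
    TT dd Z σ (X (i, l)) = gd dd i (σ (Z l)) := by
  unfold TT
  rw [coe_eval₂Hom, eval₂_X]

theorem TT_gd (hZ : IsTranscendenceBasis k Z) (hdd : ∀ i j, dd i (Z j) = if i = j then 1 else 0)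
    (σ : K →ₐ[k] K) (i : Fin w) (y : K) : TT dd Z σ (gd dd i y) = gd dd i (σ y) := by
  have h1 := chain_rule (k := k) (dd := dd)
    ((C : K →+* MvPolynomial (Fin w × Fin d) K).comp (σ : K →+* K))
    (fun y => gd dd i (σ y)) (fun y z => by rw [map_add, gd_add])
    (fun y z => by
      rw [map_mul, gd_mul]
      rfl) (fun c => by rw [AlgHom.commutes, gd_const]) hZ hdd y
  change gd dd i (σ y) = _ at h1
  rw [h1]
  unfold gd
  rw [map_sum]
  refine Finset.sum_congr rfl fun l _ => ?_
  rw [map_mul, TT_X, TT_C]
  rfl

/-- the generic value of the form `a (dy) ^ m` -/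
noncomputable def gform (dd : Fin d → Derivation k K K) (m : ℕ) (y : Fin w → K) (a : K) :
    MvPolynomial (Fin w × Fin d) K :=
  (Matrix.of fun j i => gd dd j (y i)).det ^ m * C a

theorem TT_gform (hZ : IsTranscendenceBasis k Z)
    (hdd : ∀ i j, dd i (Z j) = if i = j then 1 else 0) (σ : K →ₐ[k] K) (m : ℕ) (y : Fin w → K)
    (a : K) : TT dd Z σ (gform dd m y a) = gform dd m (fun l => σ (y l)) (σ a) := by
  unfold gform
  rw [map_mul, map_pow, TT_C, RingHom.map_det]
  congr 3
  ext1 j i
  rw [RingHom.mapMatrix_apply, Matrix.map_apply, Matrix.of_apply, Matrix.of_apply,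
    TT_gd hZ hdd]

theorem dsum_apply {ι : Type} (s : Finset ι) (f : ι → Derivation k K K) (y : K) :
    (∑ j ∈ s, f j) y = ∑ j ∈ s, f j y := by
  classical
  induction s using Finset.induction_on with
  | empty => rfl
  | insert a s ha ih => rw [Finset.sum_insert ha, Finset.sum_insert ha, Derivation.add_apply, ih]

theorem eval_gd (A : Fin w × Fin d → K) (i : Fin w) (y : K) :
    eval A (gd dd i y) = (∑ l, A (i, l) • dd l) y := by
  unfold gd
  rw [map_sum, dsum_apply]
  refine Finset.sum_congr rfl fun l _ => ?_
  rw [map_mul, eval_X, eval_C, Derivation.smul_apply, smul_eq_mul]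

theorem eval_gform (A : Fin w × Fin d → K) (m : ℕ) (y : Fin w → K) (a : K) :
    eval A (gform dd m y a) =
      (Matrix.of fun j i => (∑ l, A (j, l) • dd l) (y i)).det ^ m * a := by
  unfold gform
  rw [map_mul, map_pow, eval_C, RingHom.map_det]
  congr 3
  ext1 j i
  rw [RingHom.mapMatrix_apply, Matrix.map_apply, Matrix.of_apply, Matrix.of_apply, eval_gd]

theorem gform_homog (m : ℕ) (y : Fin w → K) (a : K) :
    (gform dd m y a).IsHomogeneous (w * m) := by
  classical
  unfold gform
  have h1 : ∀ j i, (gd dd j (y i) : MvPolynomial (Fin w × Fin d) K).IsHomogeneous 1 := by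
    intro j i
    unfold gd
    refine IsHomogeneous.sum _ _ _ fun l _ => ?_
    exact (isHomogeneous_X K (j, l)).mul (isHomogeneous_C _ _)
  have h2 : (Matrix.of fun j i => (gd dd j (y i) : MvPolynomial (Fin w × Fin d) K)).det.IsHomogeneous
      w := by
    rw [Matrix.det_apply]
    refine IsHomogeneous.sum _ _ _ fun τ _ => ?_
    have h3 : (∏ i, (Matrix.of fun j i => (gd dd j (y i) : MvPolynomial (Fin w × Fin d) K))
        (τ i) i).IsHomogeneous (∑ i : Fin w, 1) :=
      IsHomogeneous.prod _ _ _ fun i _ => h1 _ _
    rw [Finset.sum_const, Finset.card_univ, Fintype.card_fin, smul_eq_mul, mul_one] at h3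
    rcases Int.units_eq_one_or (Equiv.Perm.sign τ) with hs | hs
    · rw [hs, one_smul]
      exact h3
    · rw [hs, Units.neg_smul, one_smul]
      exact h3.neg
  have h3 := (h2.pow m).mul (isHomogeneous_C (Fin w × Fin d) a)
  rwa [add_zero] at h3

end Pool.Agent.Q13.KO
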