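import Pool.Agent.Q13.KO.Rec
import Pool.Agent.Q13.KO.Big
import Pool.Agent.Y189.DD.RC
import Pool.Agent.TH143.GT.Ent

/-!
A finiteness theorem of Kobayashi-Ochiai type: the orbits of the embeddings of a function field of
general type under an endomorphism of a finitely generated field are periodic.
-/

set_option autoImplicit false
set_option linter.overlappingInstances false
set_option linter.unusedSectionVars false

open FF MvPolynomial

namespace Pool.Agent.Q13.KO

open Pool.Agent.W602.GT Pool.Agent.TH143.GT Pool.Agent.TH143.HE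
open Pool.Agent.W603.GR (OffQ)

theorem log_of_gt {k K : Type} [Field k] [Field K] [Algebra k K] {w : ℕ}
    (h : GeneralType k K w) (Bd : Place k K → Prop) : LogGeneralType k K w Bd := by
  obtain ⟨htr, N, hN, ω, hω, hreg, D, hD0, hind⟩ := h
  refine ⟨htr, N, hN, ω, hω, fun P hP j D' hD' => hreg P hP j D' fun i f hf => ?_,
    fun P hP _ j => hreg P hP j, D, hD0, hind⟩
  by_cases hf0 : f = 0
  · rw [hf0, map_zero]; exact P.reg_zero
  · have h1 := P.reg_mul (hD' i f) hf
    rwa [div_mul_cancel₀ _ hf0] at h1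

theorem mk_le_cont {K : Type} [Field K] [Algebra ℂ K] {d : ℕ} {Z : Fin d → K}
    (hZ : IsTranscendenceBasis ℂ Z) : Cardinal.mk K ≤ Cardinal.continuum := by
  have halg := hZ.isAlgebraic
  have h1 := Algebra.IsAlgebraic.cardinalMk_le_max (Algebra.adjoin ℂ (Set.range Z)) K
  have h2 : Cardinal.mk (Algebra.adjoin ℂ (Set.range Z)) = Cardinal.mk (MvPolynomial (Fin d) ℂ) :=
    Cardinal.mk_congr hZ.1.aevalEquiv.toEquiv.symm
  have h3 : Cardinal.mk (MvPolynomial (Fin d) ℂ) ≤ Cardinal.continuum := by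
    refine MvPolynomial.cardinalMk_le_max_lift.trans ?_
    simp only [Cardinal.lift_id, Cardinal.mk_fin, Cardinal.mk_complex]
    refine max_le (max_le le_rfl ?_) Cardinal.aleph0_le_continuum
    exact (Cardinal.natCast_lt_aleph0.le).trans Cardinal.aleph0_le_continuum
  rw [h2] at h1
  exact h1.trans (max_le h3 Cardinal.aleph0_le_continuum)

theorem exists_iso {K : Type} [Field K] [Algebra ℂ K] {d : ℕ} {Z : Fin d → K}
    (hZ : IsTranscendenceBasis ℂ Z) (ι : Type) [Finite ι] :
    Nonempty (AlgebraicClosure (FractionRing (MvPolynomial ι K)) ≃+* ℂ) := by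
  have hK := mk_le_cont hZ
  have h1 : Cardinal.mk (MvPolynomial ι K) ≤ Cardinal.continuum := by
    refine MvPolynomial.cardinalMk_le_max.trans ?_
    refine max_le (max_le hK ?_) Cardinal.aleph0_le_continuum
    exact (Cardinal.mk_le_aleph0 (α := ι)).trans Cardinal.aleph0_le_continuum
  have h2 : Cardinal.mk (FractionRing (MvPolynomial ι K)) ≤ Cardinal.continuum := by
    rw [FractionRing.cardinalMk]
    exact h1
  have h3 : Cardinal.mk (AlgebraicClosure (FractionRing (MvPolynomial ι K))) ≤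
      Cardinal.continuum := by
    refine (Algebra.IsAlgebraic.cardinalMk_le_max (FractionRing (MvPolynomial ι K)) _).trans ?_
    exact max_le h2 Cardinal.aleph0_le_continuum
  have hinj : Function.Injective (((algebraMap (FractionRing (MvPolynomial ι K))
      (AlgebraicClosure (FractionRing (MvPolynomial ι K)))).comp
      (algebraMap (MvPolynomial ι K) (FractionRing (MvPolynomial ι K)))).comp
      ((C : K →+* MvPolynomial ι K).comp (algebraMap ℂ K))) :=
    RingHom.injective _
  have h4 : Cardinal.continuum ≤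
      Cardinal.mk (AlgebraicClosure (FractionRing (MvPolynomial ι K))) := by
    rw [← Cardinal.mk_complex]
    exact Cardinal.mk_le_of_injective hinj
  have h5 : Cardinal.mk (AlgebraicClosure (FractionRing (MvPolynomial ι K))) =
      Cardinal.mk ℂ := by
    rw [Cardinal.mk_complex]
    exact le_antisymm h3 h4
  have hchar : CharZero (AlgebraicClosure (FractionRing (MvPolynomial ι K))) :=
    charZero_of_injective_ringHom hinj
  refine IsAlgClosed.ringEquiv_of_equiv_of_charZero ?_ (Cardinal.eq.1 h5)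
  rw [h5, Cardinal.mk_complex]
  exact Cardinal.aleph0_lt_continuum

/-- **No rational curves**: a nonconstant rational curve through the generic point over an
extension. -/
theorem no_curve {F Ω : Type} [Field F] [Algebra ℂ F] [Field Ω] [Algebra ℂ Ω] {w N : ℕ}
    (h : GeneralType ℂ F w) {r : Fin (N + 1) → F} (hr0 : r 0 = 1) (hr : coords ℂ r = ⊤)
    (p : Fin (N + 1) → Polynomial Ω)
    (h1 : ∀ G : MvPolynomial (Fin (N + 1)) ℂ, IsForm G → W602.GT.val r G = 0 →
      (aeval p G : Polynomial Ω) = 0)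
    (h2 : ∀ G : MvPolynomial (Fin (N + 1)) ℂ, IsForm G → (aeval p G : Polynomial Ω) = 0 →
      W602.GT.val r G = 0) (i j : Fin (N + 1)) :
    Polynomial.derivative (p i) * p j = p i * Polynomial.derivative (p j) := by
  classical
  -- the field of the coefficients
  let T : Set Ω := ⋃ i : Fin (N + 1), ((p i).coeffs : Set Ω)
  have hT : T.Finite := Set.finite_iUnion fun i => Finset.finite_toSet _
  let M : IntermediateField ℂ Ω := IntermediateField.adjoin ℂ T
  have hM : Algebra.EssFiniteType ℂ M := by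
    rw [IntermediateField.essFiniteType_iff]
    exact ⟨hT.toFinset, by rw [Set.Finite.coe_toFinset]⟩
  obtain ⟨m, hm⟩ : ∃ m : ℕ, Algebra.trdeg ℂ M = m := Cardinal.lt_aleph0.1 (trdeg_lt_aleph0 ℂ _)
  have hlift : ∀ i, ∃ W : Polynomial M, W.map (algebraMap M Ω) = p i := by
    intro i
    have h3 : p i ∈ Polynomial.lifts (algebraMap M Ω) := by
      rw [Polynomial.lifts_iff_coeff_lifts]
      intro n
      by_cases h0 : (p i).coeff n = 0
      · exact ⟨0, by rw [h0, map_zero]⟩
      · have h4 : (p i).coeff n ∈ T := Set.mem_iUnion.2 ⟨i, Polynomial.coeff_mem_coeffs h0⟩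
        exact ⟨⟨_, IntermediateField.subset_adjoin ℂ T h4⟩, rfl⟩
    exact h3
  choose W hW using hlift
  have hWG : ∀ G : MvPolynomial (Fin (N + 1)) ℂ,
      (aeval W G : Polynomial M).map (algebraMap M Ω) = aeval p G := by
    intro G
    have h3 := MvPolynomial.comp_aeval_apply (f := W)
      (Polynomial.mapAlgHom (IsScalarTower.toAlgHom ℂ M Ω)) G
    have h4 : (fun i => (Polynomial.mapAlgHom (IsScalarTower.toAlgHom ℂ M Ω)) (W i)) = p :=
      funext hW
    rw [h4] at h3
    exact h3
  have hWG0 : ∀ G : MvPolynomial (Fin (N + 1)) ℂ,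
      (aeval W G : Polynomial M) = 0 ↔ (aeval p G : Polynomial Ω) = 0 := by
    intro G
    rw [← hWG]
    exact (Polynomial.map_eq_zero_iff (algebraMap M Ω).injective).symm
  have hF : Fam r (1 : MvPolynomial (Fin (N + 1)) ℂ) W 0 := by
    refine ⟨fun G hG => ?_, 1, one_ne_zero, ?_⟩
    · rw [hWG0]
      exact ⟨h1 G hG, h2 G hG⟩
    · rw [map_one, pow_zero, mul_one, Polynomial.C_1]
  have hrne : r ≠ 0 := by
    intro h0
    have := congrFun h0 0
    rw [hr0] at this
    exact one_ne_zero this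
  have hmain := (hF.main h.1 hm hrne hr (isHomogeneous_one _ _)).2.2.1 (log_of_gt h _)
  have hflat : ∀ i, Polynomial.derivative (W i) * W 0 = W i * Polynomial.derivative (W 0) := by
    intro i
    have h3 := hmain (r i) 1 (X i) (X 0) (isHomogeneous_X _ _) (isHomogeneous_X _ _) (by
      unfold W602.GT.val
      rw [aeval_X, hr0]
      exact one_ne_zero) (by
      unfold W602.GT.val
      rw [aeval_X, aeval_X, hr0, div_one])
    rwa [aeval_X, aeval_X] at h3
  have hW0 : W 0 ≠ 0 := by
    rw [← hF.ne 0, hr0]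
    exact one_ne_zero
  have hij : Polynomial.derivative (W i) * W j = W i * Polynomial.derivative (W j) := by
    apply mul_left_cancel₀ hW0
    linear_combination W j * hflat i - W i * hflat j
  have h3 := congrArg (Polynomial.map (algebraMap M Ω)) hij
  rw [Polynomial.map_mul, Polynomial.map_mul, ← Polynomial.derivative_map,
    ← Polynomial.derivative_map, hW, hW] at h3
  exact h3

theorem gform_mul {K : Type} [Field K] [Algebra ℂ K] {d w : ℕ} (dd : Fin d → Derivation ℂ K K)
    (m : ℕ) (y : Fin w → K) (a b : K) : gform dd m y (a * b) = gform dd m y b * C a := by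
  unfold gform
  rw [map_mul]
  ring

/-- **Kobayashi-Ochiai for an endomorphism.** Let `K` be a finitely generated field over `ℂ` with
an endomorphism `σ`, and let `F` be the function field of a variety of general type of positive
dimension. Then each embedding of `F` into `K` is fixed by a power of `σ`. -/
theorem ko {K F : Type} [Field K] [Field F] [Algebra ℂ K] [Algebra ℂ F]
    [Algebra.EssFiniteType ℂ K] [Algebra.EssFiniteType ℂ F] {w : ℕ} (hw : 0 < w)
    (hGT : GeneralType ℂ F w) (σ : K →ₐ[ℂ] K) (ι : F →ₐ[ℂ] K) :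
    ∃ n, 0 < n ∧ ∀ z, (σ ^ n) (ι z) = ι z := by
  classical
  obtain ⟨d, hd⟩ : ∃ d : ℕ, Algebra.trdeg ℂ K = d := Cardinal.lt_aleph0.1 (trdeg_lt_aleph0 ℂ K)
  obtain ⟨Z, hZ⟩ := Pool.Agent.Y173.QA.exists_tb hd
  obtain ⟨dd, hdd⟩ := Pool.Agent.Y173.QA.exists_duals hZ
  obtain ⟨m, N, x, E, r, a0, hx, hE, ha0, hr0, hr, hη⟩ := exists_big hGT
  choose η hη1 hη2 hη3 using hη
  have hind : AlgebraicIndependent ℂ (fun l => ι (x l)) := hx.1.map' (f := ι) ι.injective
  have hd0 : 0 < d := by
    by_contra h0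
    obtain rfl : d = 0 := by omega
    have h1 := hind.cardinalMk_le_trdeg
    rw [hd, Cardinal.mk_fin] at h1
    have h2 : w ≤ 0 := by exact_mod_cast h1
    omega
  have hpow : ∀ n z, (σ ^ (n + 1)) z = σ ((σ ^ n) z) := fun n z => by
    rw [pow_succ']
    rfl
  let S : Set ((Fin w → K) × K) := {q | ∀ P : Place ℂ K, Pool.Agent.W619.PQ.IsDivisorial P d →
    Pool.Agent.W619.Y.YGood w m P q.1 q.2}
  have hS : ∀ D : Fin w → Derivation ℂ K K, ∃ V : Submodule ℂ K, FiniteDimensional ℂ V ∧
      ∀ q ∈ S, (Matrix.of fun j i => D j (q.1 i)).det ^ m * q.2 ∈ V := by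
    intro D
    obtain ⟨V, h1, h2⟩ := fin_values (w := w) (m := m) hd0 hd
      (fun y hy => Pool.Agent.W619.Y.fin_over y hy) hZ D
    exact ⟨V, h1, fun q hq => h2 q.1 q.2 hq⟩
  obtain ⟨y, hy⟩ : ∃ y : ℕ → Fin w → K, ∀ n l, y n l = (σ ^ n) (ι (x l)) := ⟨_, fun _ _ => rfl⟩
  obtain ⟨a, ha⟩ : ∃ a : Fin (N + 1) → ℕ → K, ∀ j n, a j n = (σ ^ n) (ι (r j * a0)) :=
    ⟨_, fun _ _ => rfl⟩
  have hyn : ∀ n, y n = fun l => (σ ^ n) (ι (x l)) := fun n => funext (hy n)
  have hmem : ∀ j n, (y n, a j n) ∈ S := fun j n P hP => by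
    have h1 := ygood_emb hGT.1 hd (hη1 j) (hη2 j) hx hE ((σ ^ n).comp ι) hP
    rw [hη3 j] at h1
    change Pool.Agent.W619.Y.YGood w m P (y n) (a j n)
    rw [hyn, ha]
    exact h1
  have hrec := fun j => exists_rec hZ hdd σ m S hS y (a j)
    (fun n i => by rw [hy, hy, hpow]) (fun n => by rw [ha, ha, hpow]) (hmem j)
  obtain ⟨g, hg⟩ : ∃ g : Fin (N + 1) → ℕ → MvPolynomial (Fin w × Fin d) K,
      ∀ j n, g j n = gform dd m (y n) (a j n) := ⟨_, fun _ _ => rfl⟩
  have hgj : ∀ j n, g j n = g 0 n * C ((σ ^ n) (ι (r j))) := by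
    intro j n
    rw [hg, hg, ha, ha, hr0, one_mul, map_mul, map_mul, gform_mul]
  have hg0 : ∀ n, g 0 n ≠ 0 := by
    intro n h0
    have hyi : AlgebraicIndependent ℂ (y n) := by
      rw [hyn]
      exact hind.map' (f := (σ ^ n)) (σ ^ n).injective
    obtain ⟨D, hD⟩ := Pool.Agent.TH466.QT.exists_dual_of_indep hyi
    have h1 := congrArg (eval fun q : Fin w × Fin d => D q.1 (Z q.2)) h0
    rw [hg, eval_gform, map_zero] at h1
    have h2 : (Matrix.of fun j i => (∑ l, D j (Z l) • dd l) (y n i)) =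
        (1 : Matrix (Fin w) (Fin w) K) := by
      ext j i
      rw [Matrix.of_apply, ← Pool.Agent.Y173.QA.der_expand hZ hdd (D j), hD, Matrix.one_apply]
      by_cases hij : i = j
      · rw [if_pos hij, if_pos hij.symm]
      · rw [if_neg hij, if_neg (Ne.symm hij)]
    rw [h2, Matrix.det_one, one_pow, one_mul, ha, hr0, one_mul, map_eq_zero, map_eq_zero] at h1
    exact ha0 h1
  have hgG : ∀ n (G : MvPolynomial (Fin (N + 1)) ℂ) (D : ℕ), G.IsHomogeneous D →
      aeval (fun j => g j n) G = g 0 n ^ D * C ((σ ^ n) (ι (W602.GT.val r G))) := by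
    intro n G D hG
    have h1 : (fun j => g j n) = fun j => g 0 n * C ((σ ^ n) (ι (r j))) :=
      funext fun j => hgj j n
    rw [h1, aeval_scale_hom hG]
    congr 1
    have h2 := MvPolynomial.comp_aeval_apply (f := r)
      ((((Algebra.ofId K (MvPolynomial (Fin w × Fin d) K)).restrictScalars ℂ).comp
        (σ ^ n)).comp ι) G
    exact h2.symm
  -- the field
  obtain ⟨e⟩ := exists_iso hZ (Fin w × Fin d)
  let Ω := AlgebraicClosure (FractionRing (MvPolynomial (Fin w × Fin d) K))
  let γ : MvPolynomial (Fin w × Fin d) K →ₐ[ℂ] Ω :=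
    (IsScalarTower.toAlgHom ℂ (FractionRing (MvPolynomial (Fin w × Fin d) K)) Ω).comp
      (IsScalarTower.toAlgHom ℂ (MvPolynomial (Fin w × Fin d) K)
        (FractionRing (MvPolynomial (Fin w × Fin d) K)))
  have hγ : Function.Injective γ := by
    have h1 : Function.Injective (algebraMap (MvPolynomial (Fin w × Fin d) K)
        (FractionRing (MvPolynomial (Fin w × Fin d) K))) := IsFractionRing.injective _ _
    exact (algebraMap (FractionRing (MvPolynomial (Fin w × Fin d) K)) Ω).injective.comp h1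
  let τ : ℂ →+* ℂ := (e : Ω →+* ℂ).comp (algebraMap ℂ Ω)
  have hτ : ∀ c, τ c = e (algebraMap ℂ Ω c) := fun c => rfl
  let s : Set (MvPolynomial (Fin (N + 1)) ℂ) := {H | ∃ G : MvPolynomial (Fin (N + 1)) ℂ,
    IsForm G ∧ W602.GT.val r G = 0 ∧ H = MvPolynomial.map τ G}
  obtain ⟨v, hv⟩ : ∃ v : ℕ → Fin (N + 1) → ℂ, ∀ n j, v n j = e (γ (g j n)) :=
    ⟨_, fun _ _ => rfl⟩
  have hev : ∀ n (G : MvPolynomial (Fin (N + 1)) ℂ),
      eval (v n) (MvPolynomial.map τ G) = e (γ (aeval (fun j => g j n) G)) := by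
    intro n G
    have h1 : γ (aeval (fun j => g j n) G) = aeval (fun j => γ (g j n)) G :=
      MvPolynomial.comp_aeval_apply (f := fun j => g j n) γ G
    have h2 := MvPolynomial.eval₂_comp_left (e : Ω →+* ℂ) (algebraMap ℂ Ω)
      (fun j => γ (g j n)) G
    rw [eval_map, h1, aeval_def]
    change _ = (e : Ω →+* ℂ) (eval₂ (algebraMap ℂ Ω) (fun j => γ (g j n)) G)
    rw [h2]
    congr 1
    funext j
    exact hv n j
  have hgz : ∀ n (G : MvPolynomial (Fin (N + 1)) ℂ), IsForm G →
      (aeval (fun j => g j n) G = 0 ↔ W602.GT.val r G = 0) := by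
    rintro n G ⟨D, hG⟩
    rw [hgG n G D hG]
    constructor
    · intro h0
      have h1 := (mul_eq_zero.1 h0).resolve_left (pow_ne_zero _ (hg0 n))
      rw [C_eq_zero, map_eq_zero, map_eq_zero] at h1
      exact h1
    · intro h0
      rw [h0, map_zero, map_zero, map_zero, mul_zero]
  have hs : ∀ G ∈ s, ∃ d, G.IsHomogeneous d := by
    rintro _ ⟨G, ⟨D, hG⟩, -, rfl⟩
    exact ⟨D, hG.map τ⟩
  have hne : ∀ n, v n ≠ 0 := by
    intro n h0
    have h1 := congrFun h0 0
    rw [hv, Pi.zero_apply, map_eq_zero_iff _ e.injective, map_eq_zero_iff _ hγ] at h1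
    exact hg0 n h1
  have hprec : ∀ j, PRec fun n => v n j := by
    intro j
    obtain ⟨R, c, ⟨i, hi, hci⟩, hrel⟩ := hrec j
    refine ⟨R, fun i => Polynomial.C (τ (c i)), ⟨i, hi, ?_⟩, fun n => ?_⟩
    · rw [Ne, Polynomial.C_eq_zero, map_eq_zero]
      exact hci
    · have h1 := congrArg (fun z => e (γ z)) (hrel n)
      simp only [map_zero, map_sum, map_smul] at h1
      rw [← h1]
      refine Finset.sum_congr rfl fun i _ => ?_
      change Polynomial.eval (n : ℂ) (Polynomial.C (τ (c i))) * v (n + i) j = _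
      rw [Polynomial.eval_C, hv, hg, Algebra.smul_def, map_mul, hτ]
  have hX : ∀ n, ∀ G ∈ s, eval (v n) G = 0 := by
    rintro n _ ⟨G, hG, h0, rfl⟩
    rw [hev, (hgz n G hG).2 h0, map_zero, map_zero]
  have hnoRC : ∀ n, ¬ Pool.Agent.Y189.DD.RC s (v n) := by
    rintro n ⟨p, hp1, hp2, hp3⟩
    obtain ⟨q, hq⟩ : ∃ q : Fin (N + 1) → Polynomial Ω, ∀ j, q j = (p j).map (e.symm : ℂ →+* Ω) :=
      ⟨_, fun _ => rfl⟩
    have hqp : ∀ j, p j = (q j).map (e : Ω →+* ℂ) := by
      intro j
      rw [hq, Polynomial.map_map]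
      have h1 : (e : Ω →+* ℂ).comp (e.symm : ℂ →+* Ω) = RingHom.id ℂ := by
        ext z
        simp
      rw [h1, Polynomial.map_id]
    have hqG : ∀ G : MvPolynomial (Fin (N + 1)) ℂ, (aeval q G : Polynomial Ω) =
        (aeval p (MvPolynomial.map τ G) : Polynomial ℂ).map (e.symm : ℂ →+* Ω) := by
      intro G
      have h2 := MvPolynomial.eval₂_comp_left (Polynomial.mapRingHom (e.symm : ℂ →+* Ω))
        ((algebraMap ℂ (Polynomial ℂ)).comp τ) p G
      rw [aeval_def, aeval_def, eval₂_map]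
      rw [Polynomial.coe_mapRingHom] at h2
      rw [h2]
      congr 1
      · ext c
        · change _ = Polynomial.coeff (Polynomial.map (e.symm : ℂ →+* Ω) (Polynomial.C (τ c))) _
          rw [Polynomial.map_C, hτ]
          simp [Polynomial.algebraMap_apply]
      · funext j
        rw [hq]
        rfl
    have hcur := no_curve hGT hr0 hr q (fun G hG h0 => by
      rw [hqG, hp1 _ ⟨G, hG, h0, rfl⟩, Polynomial.map_zero]) (fun G hG h0 => by
      rw [← hgz n G hG]
      apply hγ
      rw [map_zero]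
      have h1 : γ (aeval (fun j => g j n) G) = aeval (fun j => γ (g j n)) G :=
        MvPolynomial.comp_aeval_apply (f := fun j => g j n) γ G
      have h2 : ∀ j, γ (g j n) = (q j).eval 1 := by
        intro j
        have h3 := congrFun hp2 j
        change (p j).eval 1 = v n j at h3
        rw [hv] at h3
        apply e.injective
        rw [← h3, hqp j]
        have h4 := Polynomial.eval₂_at_apply (e : Ω →+* ℂ) (p := q j) (1 : Ω)
        rw [map_one] at h4
        rw [Polynomial.eval_map, h4]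
        rfl
      have h3 : (fun j => γ (g j n)) = fun j => (Polynomial.aeval (1 : Ω)) (q j) :=
        funext fun j => by rw [h2, Polynomial.coe_aeval_eq_eval]
      rw [h1, h3]
      have h5 := MvPolynomial.comp_aeval_apply (f := q)
        ((Polynomial.aeval (1 : Ω) : Polynomial Ω →ₐ[Ω] Ω).restrictScalars ℂ) G
      have h6 := h5.symm
      rw [h0, map_zero] at h6
      exact h6)
    obtain ⟨j, k, z1, z2, hzz⟩ := hp3
    apply hzz
    have h1 := congrArg (Polynomial.map (e : Ω →+* ℂ)) (hcur j k)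
    rw [Polynomial.map_mul, Polynomial.map_mul, ← Polynomial.derivative_map,
      ← Polynomial.derivative_map, ← hqp, ← hqp] at h1
    rw [poly_const h1 z1 z2, mul_comm]
  obtain ⟨n, n0, hn, hper⟩ := Pool.Agent.Y189.DD.proj_periodic' hs hne hprec hX hnoRC
  refine ⟨n, hn, ?_⟩
  have hri : ∀ i, (σ ^ n) (ι (r i)) = ι (r i) := by
    intro i
    have h1 := hper n0 le_rfl i 0
    rw [hv, hv, hv, hv, ← map_mul, ← map_mul, ← map_mul, ← map_mul] at h1
    have h2 := hγ (e.injective h1)
    rw [hgj i (n0 + n), hgj i n0] at h2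
    have h3 : (C ((σ ^ (n0 + n)) (ι (r i))) : MvPolynomial (Fin w × Fin d) K) =
        C ((σ ^ n0) (ι (r i))) := by
      apply mul_left_cancel₀ (mul_ne_zero (hg0 (n0 + n)) (hg0 n0))
      linear_combination h2
    have h4 := C_injective _ _ h3
    rw [pow_add] at h4
    exact (σ ^ n0).injective h4
  intro z
  have hz : z ∈ coords ℂ r := by rw [hr]; trivial
  unfold coords at hz
  induction hz using IntermediateField.adjoin_induction with
  | mem z hz =>
    obtain ⟨i, j, -, rfl⟩ := hz
    rw [map_div₀, map_div₀, hri, hri]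
  | algebraMap c => rw [ι.commutes, (σ ^ n).commutes]
  | add y z _ _ hy hz => rw [map_add, map_add, hy, hz]
  | inv z _ hz => rw [map_inv₀, map_inv₀, hz]
  | mul y z _ _ hy hz => rw [map_mul, map_mul, hy, hz]

end Pool.Agent.Q13.KO
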