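import Pool.Agent.Q13.KO.Rat
import Pool.Agent.Q13.KO.Main

/-!
Orbits in the case that the ring of germs is a domain.
-/

set_option autoImplicit false

namespace Pool.Agent.Q13.KO

open MvPolynomial Filter Pool.Agent.TH143.DE Pool.Agent.TH143.HE Pool.Agent.TH143.TW
  Pool.Agent.TH143.GE Pool.Agent.TH143.GT Pool.Agent.W602.GT

variable {n N : ℕ}

/-- the field of fractions with the endomorphism given by the shift -/
theorem exists_field {v : Fin n → GG} (hv : Stable v) (hd : IsDomain (SS v)) :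
    ∃ (K : Type) (_ : Field K) (_ : Algebra ℂ K) (_ : Algebra.EssFiniteType ℂ K)
      (f : SS v →ₐ[ℂ] K) (σ : K →ₐ[ℂ] K), Function.Injective f ∧
      ∀ z : SS v, σ (f z) = f ⟨shG z, hv.all z z.2⟩ := by
  let s : SS v →ₐ[ℂ] SS v :=
    { toFun := fun x => ⟨shG x, hv.all x x.2⟩
      map_one' := Subtype.ext (map_one shG)
      map_mul' := fun x y => Subtype.ext (map_mul shG (x : GG) (y : GG))
      map_zero' := Subtype.ext (map_zero shG)
      map_add' := fun x y => Subtype.ext (map_add shG (x : GG) (y : GG))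
      commutes' := fun c => Subtype.ext (by
        change shG (algebraMap ℂ GG c) = algebraMap ℂ GG c
        rw [← gg.commutes c, shG_gg]
        rfl) }
  have hs : Function.Injective s := by
    intro x y h
    apply Subtype.ext
    apply shG_inj
    exact congrArg (Subtype.val : SS v → GG) h
  let K := FractionRing (SS v)
  let f : SS v →ₐ[ℂ] K := IsScalarTower.toAlgHom ℂ (SS v) K
  have hf : Function.Injective f := IsFractionRing.injective (SS v) K
  have hess : Algebra.EssFiniteType ℂ K := by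
    have h1 := SS_ess v
    have h2 : Algebra.EssFiniteType (SS v) K :=
      Algebra.EssFiniteType.of_isLocalization _ (nonZeroDivisors (SS v))
    exact Algebra.EssFiniteType.comp ℂ (SS v) K
  have hg : Function.Injective (f.comp s) := hf.comp hs
  let σ : K →ₐ[ℂ] K := IsFractionRing.liftAlgHom hg
  refine ⟨K, inferInstance, inferInstance, hess, f, σ, hf, fun z => ?_⟩
  have h1 := IsFractionRing.liftAlgHom_apply (K := K) hg (f z)
  have h2 : σ (f z) = (f.comp s) z := by
    rw [show σ (f z) = IsFractionRing.lift hg (f z) from h1]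
    exact IsFractionRing.lift_algebraMap hg z
  rw [h2]
  rfl

section

variable {v : Fin n → GG} {K : Type} [Field K] [Algebra ℂ K] {f : SS v →ₐ[ℂ] K}
  {σ : K →ₐ[ℂ] K}

/-- the values of forms -/
theorem aeval_zero (hf : Function.Injective f) {x : ℕ → Fin (N + 1) → ℂ} (hx : Rel v x)
    (G : MvPolynomial (Fin (N + 1)) ℂ) :
    aeval (fun j => f ⟨_, AA_le v (hx j)⟩) G = 0 ↔ ∀ᶠ m in atTop, eval (x m) G = 0 := by
  have h1 := MvPolynomial.comp_aeval_apply
    (f := fun j => (⟨_, AA_le v (hx j)⟩ : SS v)) f G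
  rw [← h1, map_eq_zero_iff f hf]
  have h2 := MvPolynomial.comp_aeval_apply
    (f := fun j => (⟨_, AA_le v (hx j)⟩ : SS v)) (SS v).val G
  have h3 : (aeval fun j => (⟨_, AA_le v (hx j)⟩ : SS v)) G = 0 ↔
      (SS v).val ((aeval fun j => (⟨_, AA_le v (hx j)⟩ : SS v)) G) = 0 :=
    (map_eq_zero_iff (SS v).val Subtype.val_injective).symm
  rw [h3, h2]
  have h4 : (fun j => (SS v).val (⟨_, AA_le v (hx j)⟩ : SS v)) =
      fun j => gg fun m => x m j := rfl
  rw [h4]
  have h5 := MvPolynomial.comp_aeval_apply (f := fun j => (fun m => x m j : ℕ → ℂ)) gg G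
  rw [← h5, gg_zero]
  have h6 : ∀ m, (aeval (fun j => (fun m => x m j : ℕ → ℂ)) G : ℕ → ℂ) m = eval (x m) G := by
    intro m
    have h7 := MvPolynomial.comp_aeval_apply (f := fun j => (fun m => x m j : ℕ → ℂ))
      (Pi.evalAlgHom ℂ (fun _ : ℕ => ℂ) m) G
    have h8 : (aeval (fun j => (fun m => x m j : ℕ → ℂ)) G : ℕ → ℂ) m =
      aeval (fun i => x m i) G := h7
    rw [h8, MvPolynomial.aeval_eq_eval]
  simp only [h6]

theorem sigma_pow (hs : ∀ (z : SS v) (hz : shG (z : GG) ∈ SS v), σ (f z) = f ⟨shG z, hz⟩)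
    (hv : Stable v) (k : ℕ) (z : SS v) :
    (σ ^ k) (f z) = f ⟨(shG ^ k) (z : GG), hv.pow k z z.2⟩ := by
  induction k with
  | zero => rfl
  | succ k ih =>
    have h1 : (σ ^ (k + 1)) (f z) = σ ((σ ^ k) (f z)) := by rw [pow_succ']; rfl
    rw [h1, ih, hs _ (hv.all _ (hv.pow k z z.2))]
    congr 1
    apply Subtype.ext
    exact shG_pow_succ k z

/-- periodic points -/
theorem per_of_ko (hf : Function.Injective f)
    (hs : ∀ (z : SS v) (hz : shG (z : GG) ∈ SS v), σ (f z) = f ⟨shG z, hz⟩)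
    (hv : Stable v) {x : ℕ → Fin (N + 1) → ℂ} (hx : Rel v x) {F : Type} [Field F] [Algebra ℂ F]
    (ι : F →ₐ[ℂ] K) (y : Fin (N + 1) → F) (c : K)
    (hY : ∀ j, f ⟨_, AA_le v (hx j)⟩ = c * ι (y j)) {k : ℕ} (hk : 0 < k)
    (hper : ∀ z, (σ ^ k) (ι z) = ι z) : Per x := by
  have h1 : ∀ i j, (gg fun m => x (m + k) i * x m j) = gg fun m => x (m + k) j * x m i := by
    intro i j
    have h2 : f ⟨(shG ^ k) (gg fun m => x m i), hv.pow k _ (AA_le v (hx i))⟩ *
        f ⟨_, AA_le v (hx j)⟩ =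
        f ⟨(shG ^ k) (gg fun m => x m j), hv.pow k _ (AA_le v (hx j))⟩ *
        f ⟨_, AA_le v (hx i)⟩ := by
      have h3 := sigma_pow hs hv k ⟨_, AA_le v (hx i)⟩
      have h4 := sigma_pow hs hv k ⟨_, AA_le v (hx j)⟩
      rw [← h3, ← h4, hY i, hY j, map_mul, map_mul, hper, hper]
      ring
    rw [← map_mul, ← map_mul] at h2
    have h3 := congrArg (Subtype.val : SS v → GG) (hf h2)
    change (shG ^ k) (gg fun m => x m i) * gg (fun m => x m j) =
      (shG ^ k) (gg fun m => x m j) * gg (fun m => x m i) at h3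
    rw [shG_pow, shG_pow, ← map_mul, ← map_mul] at h3
    exact h3
  have h2 : ∀ᶠ m in atTop, ∀ i j, x (m + k) i * x m j = x (m + k) j * x m i := by
    rw [eventually_all]
    intro i
    rw [eventually_all]
    intro j
    exact gg_eq.1 (h1 i j)
  obtain ⟨m0, hm0⟩ := eventually_atTop.1 h2
  exact ⟨k, m0, hk, hm0⟩

end

/-- the field generated by the ratios of the coordinates -/
theorem exists_sub {K : Type} [Field K] [Algebra ℂ K] (Y : Fin (N + 1) → K) (hY : Y ≠ 0) :
    ∃ (F : IntermediateField ℂ K) (y : Fin (N + 1) → F) (c : K), y ≠ 0 ∧ coords ℂ y = ⊤ ∧ c ≠ 0 ∧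
      ∀ j, Y j = c * (y j : K) := by
  obtain ⟨i0, hi0⟩ := Function.ne_iff.1 hY
  have hi0' : Y i0 ≠ 0 := hi0
  let F : IntermediateField ℂ K := IntermediateField.adjoin ℂ (Set.range fun j => Y j / Y i0)
  let y : Fin (N + 1) → F := fun j => ⟨Y j / Y i0, IntermediateField.subset_adjoin ℂ _ ⟨j, rfl⟩⟩
  have hy0 : y i0 = 1 := Subtype.ext (div_self hi0')
  refine ⟨F, y, Y i0, fun h => ?_, ?_, hi0', fun j => ?_⟩
  · have h1 := congrFun h i0
    rw [hy0] at h1
    exact one_ne_zero h1
  · apply IntermediateField.lift_injective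
    have h1 : IntermediateField.lift (⊤ : IntermediateField ℂ F) = F :=
      IntermediateField.lift_top _ F
    rw [h1]
    refine le_antisymm (IntermediateField.lift_le _) ?_
    change IntermediateField.adjoin ℂ (Set.range fun j => Y j / Y i0) ≤ _
    rw [IntermediateField.adjoin_le_iff]
    rintro _ ⟨j, rfl⟩
    change ((y j : F) : K) ∈ IntermediateField.lift (coords ℂ y)
    rw [IntermediateField.mem_lift]
    refine IntermediateField.subset_adjoin ℂ _ ⟨j, i0, ?_, ?_⟩
    · rw [hy0]; exact one_ne_zero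
    · rw [hy0, div_one]
  · change Y j = Y i0 * (Y j / Y i0)
    rw [mul_div_cancel₀ _ hi0']

end Pool.Agent.Q13.KO
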