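import Pool.Agent.Y173.QA.Phi
import Pool.Agent.TH466.QT.Tens
import Pool.Agent.TH466.QG.Equiv

/-!
Pluricanonical forms of a field, and the embeddings of this field into a field of larger
transcendence degree.
-/

set_option autoImplicit false
set_option linter.overlappingInstances false
set_option linter.unusedSectionVars false

open FF IntermediateField

namespace Pool.Agent.Q13.KO

open Pool.Agent.W602.GT Pool.Agent.TH466.QG Pool.Agent.TH466.QT
open Pool.Agent.W619.PQ Pool.Agent.W619.Y
open Pool.Agent.W603.LV (Ge)

variable {k : Type} [Field k] [CharZero k]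

section transport

variable {F F' : Type} [Field F] [Field F'] [Algebra k F] [Algebra k F']

/-- transport of forms -/
noncomputable def trF (e : F ≃ₐ[k] F') {w : ℕ} (ω : (Fin w → Derivation k F F) → F) :
    (Fin w → Derivation k F' F') → F' :=
  fun D' => e (ω (fun i => pushD e.symm (D' i)))

theorem trF_pluri (e : F ≃ₐ[k] F') {w m : ℕ} {ω : (Fin w → Derivation k F F) → F}
    (hω : IsPluri m ω) : IsPluri m (trF e ω) := by
  intro A D'
  have h1 : (fun i => pushD e.symm (∑ l, A i l • D' l)) =
      fun i => ∑ l, (A.map e.symm) i l • pushD e.symm (D' l) := by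
    funext i
    ext x
    rw [pushD_apply, Pool.Agent.W357.PG.sum_apply', Pool.Agent.W357.PG.sum_apply', map_sum]
    refine Finset.sum_congr rfl fun l _ => ?_
    rw [Derivation.coe_smul, Pi.smul_apply, smul_eq_mul, map_mul, Matrix.map_apply,
      Derivation.coe_smul, Pi.smul_apply, smul_eq_mul, pushD_apply]
  change e (ω (fun i => pushD e.symm (∑ l, A i l • D' l))) = _
  rw [h1, hω, map_mul, map_pow]
  congr 2
  have h2 := RingHom.map_det (e : F →+* F') (A.map e.symm)
  change e _ = _ at h2
  rw [h2]
  congr 1
  ext i l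
  simp [RingHom.mapMatrix_apply]

theorem trF_reg (e : F ≃ₐ[k] F') {w : ℕ} {ω : (Fin w → Derivation k F F) → F}
    (hreg : ∀ P : Place k F, Divisorial w P → RegAt P ω) (P : Place k F') (hP : Divisorial w P) :
    RegAt P (trF e ω) := by
  intro D' hD'
  change P.Reg (e _)
  rw [← reg_pullPl e P]
  refine hreg (pullPl e P) ?_ _ fun i f hf => ?_
  · obtain ⟨u, hu⟩ := hP
    refine ⟨fun i => e.symm (u i), fun G hG => ?_⟩
    have h1 : MvPolynomial.aeval (fun i => e.symm (u i)) G = e.symm (MvPolynomial.aeval u G) := by
      rw [← AlgEquiv.coe_toAlgHom, ← MvPolynomial.comp_aeval_apply]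
    rw [h1]
    refine ⟨by simpa using (hu G hG).1, ?_⟩
    change P.ord (e (e.symm _)) = 0
    rw [AlgEquiv.apply_symm_apply]
    exact (hu G hG).2
  · rw [reg_pullPl] at hf ⊢
    rw [pushD_apply, AlgEquiv.symm_symm, AlgEquiv.apply_symm_apply]
    exact hD' i _ hf

end transport

/-- The values of a regular form are good at the divisorial places of a larger field. -/
theorem ygood_emb {F K : Type} [Field F] [Field K] [Algebra k F] [Algebra k K]
    [Algebra.EssFiniteType k F] {w n m : ℕ} (hF : Algebra.trdeg k F = w)
    (hK : Algebra.trdeg k K = n) {η : (Fin w → Derivation k F F) → F} (hη : IsPluri m η)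
    (hreg : ∀ P : Place k F, Divisorial w P → RegAt P η)
    {x : Fin w → F} {E : Fin w → Derivation k F F} (hx : IsTranscendenceBasis k x)
    (hE : ∀ i j, E i (x j) = if i = j then 1 else 0) (ι : F →ₐ[k] K)
    {P : Place k K} (hP : IsDivisorial P n) :
    YGood w m P (fun l => ι (x l)) (ι (η E)) := by
  let M : IntermediateField k K := ι.fieldRange
  let e : F ≃ₐ[k] M := AlgEquiv.ofInjectiveField ι
  have he : ∀ z, ((e z : M) : K) = ι z := fun z => rfl
  have hess : Algebra.EssFiniteType k M := Algebra.EssFiniteType.of_surjective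
    (e : F →ₐ[k] M) e.surjective
  have hM : Algebra.trdeg k M = w := by rw [← hF]; exact e.symm.trdeg_eq
  have hbas : IsTranscendenceBasis k (fun l => e (x l)) := e.isTranscendenceBasis hx
  have hdual : ∀ i j, pushD e (E i) (e (x j)) = if i = j then 1 else 0 := by
    intro i j
    rw [pushD_apply, AlgEquiv.symm_apply_apply, hE]
    split_ifs <;> simp
  have hval : trF e η (fun i => pushD e (E i)) = e (η E) := by
    unfold trF
    congr 2
    funext i
    exact pushD_symm e (E i)
  have h1 := pYLOC k K M w n m hM hK (fun y hy => fin_over y hy) (trF e η) (trF_pluri e hη)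
    (fun u hu => trF_reg e hreg u hu) (fun l => e (x l)) (fun i => pushD e (E i)) hbas hdual P hP
  rw [hval] at h1
  exact h1

/-- The value of the form on regular vector fields is regular. -/
theorem reg_of_ygood {K : Type} [Field K] [Algebra k K] {w m : ℕ} {P : Place k K} {y : Fin w → K}
    {a : K} (h : YGood w m P y a) {D : Fin w → Derivation k K K} (hD : ∀ i, Pres P (D i)) :
    P.Reg ((Matrix.of fun j i => D j (y i)).det ^ m * a) := by
  obtain ⟨Z, z, hz, hZ, hge⟩ := h
  have h3 : (Matrix.of fun j i => D j (y i)) =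
      (Matrix.of fun j c => D j (z c)) * Z.transpose := by
    ext j i
    rw [Matrix.mul_apply, Matrix.of_apply, hZ]
    exact Finset.sum_congr rfl fun c _ => by
      rw [Matrix.of_apply, Matrix.transpose_apply, mul_comm]
  rw [h3, Matrix.det_mul, Matrix.det_transpose, mul_pow, mul_assoc, mul_comm (Z.det ^ m)]
  refine P.reg_mul ?_ hge
  have h4 : Ge P 0 (Matrix.of fun j c => D j (z c)).det :=
    ge_det P _ fun j c => hD j (z c) (hz c)
  have h5 := h4.pow m
  rw [mul_zero] at h5
  exact h5

end Pool.Agent.Q13.KO
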