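import Pool.Agent.Q13.KO.Emb

/-!
The values of the forms of bounded type lie in a finite-dimensional space.
-/

set_option autoImplicit false
set_option linter.overlappingInstances false
set_option linter.unusedSectionVars false

open FF IntermediateField MvPolynomial

namespace Pool.Agent.Q13.KO

open Pool.Agent.W602.GT Pool.Agent.TH466.QG Pool.Agent.TH466.QT
open Pool.Agent.W619.PQ Pool.Agent.W619.Y Pool.Agent.Y173.QA
open Pool.Agent.W603.LV (Ge)
open Pool.Agent.W619.TW (Dom)

variable {k : Type} [Field k]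

/-- a set in which the linearly independent families are bounded spans a finite-dimensional space -/
theorem fd_of_bound {V : Type} [AddCommGroup V] [Module k V] (s : Set V) (B : ℕ)
    (h : ∀ (N : ℕ) (f : Fin N → V), LinearIndependent k f → (∀ l, f l ∈ s) → N ≤ B) :
    FiniteDimensional k (Submodule.span k s) := by
  classical
  obtain ⟨b, hb, hspan, hli⟩ := exists_linearIndependent k s
  have hfin : b.Finite := by
    by_contra hinf
    obtain ⟨t, ht, hcard⟩ := Set.Infinite.exists_subset_card_eq hinf (B + 1)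
    let e : Fin (B + 1) ≃ t := (finCongr hcard.symm).trans t.equivFin.symm
    have h1 : LinearIndependent k (fun i : Fin (B + 1) => ((e i : t) : V)) := by
      have h2 : LinearIndependent k (fun x : t => (x : V)) := by
        have h3 := hli.comp (fun x : t => (⟨x, ht x.2⟩ : b)) (by
          intro x y hxy
          exact Subtype.ext (congrArg (fun z : b => (z : V)) hxy))
        exact h3
      exact h2.comp e e.injective
    have h4 := h (B + 1) _ h1 fun l => hb (ht (e l).2)
    omega
  rw [← hspan]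
  exact FiniteDimensional.span_of_finite k hfin

variable [CharZero k]

/-- a power of the uniformizer makes a vector field regular -/
theorem exists_pow_pres {K : Type} [Field K] [Algebra k K] {d : ℕ} (htr : Algebra.trdeg k K = d)
    (hfr : ∀ y : Fin d → K, IsTranscendenceBasis k y →
      FiniteDimensional (IntermediateField.adjoin k (Set.range y)) K)
    {P : Place k K} (hP : IsDivisorial P d) {s : K} (hs0 : s ≠ 0) (hs : P.ord s = 1)
    (D : Derivation k K K) : ∃ C : ℕ, ∀ C' : ℕ, C ≤ C' → Pres P (s ^ C' • D) := by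
  classical
  obtain ⟨y0, E, i0, hy, hEy, hi0, hyreg, hE⟩ := pFRAME k K d htr hfr P hP
  have hex := der_expand hy hEy D
  refine ⟨∑ l, (P.ord (D (y0 l))).natAbs, fun C' hC' f hf => ?_⟩
  rw [hex, Derivation.smul_apply, Pool.Agent.W357.PG.sum_apply', smul_eq_mul, Finset.mul_sum]
  have hsum : ∀ t : Finset (Fin d), P.Reg (∑ i ∈ t, s ^ C' * ((D (y0 i) • E i) f)) := by
    intro t
    induction t using Finset.induction_on with
    | empty => rw [Finset.sum_empty]; exact P.reg_zero
    | insert i t hi ih =>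
      rw [Finset.sum_insert hi]
      refine P.reg_add ?_ ih
      rw [Derivation.smul_apply, smul_eq_mul, ← mul_assoc]
      refine P.reg_mul ?_ (hE i f hf)
      by_cases h0 : D (y0 i) = 0
      · rw [h0, mul_zero]; exact P.reg_zero
      right
      rw [P.ord_mul (pow_ne_zero _ hs0) h0, P.ord_pow, hs]
      have h1 : (P.ord (D (y0 i))).natAbs ≤ ∑ l, (P.ord (D (y0 l))).natAbs :=
        Finset.single_le_sum (f := fun l => (P.ord (D (y0 l))).natAbs)
          (fun _ _ => Nat.zero_le _) (Finset.mem_univ i)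
      have h2 : ((P.ord (D (y0 i))).natAbs : ℤ) ≤ C' := by exact_mod_cast h1.trans hC'
      omega
  exact hsum Finset.univ

theorem scale_reg {K : Type} [Field K] [Algebra k K] {w m : ℕ} {P : Place k K} {y : Fin w → K}
    {a : K} (h : YGood w m P y a) {D : Fin w → Derivation k K K} {q : K}
    (hD : ∀ i, Pres P (q • D i)) :
    P.Reg (q ^ (w * m) * ((Matrix.of fun j i => D j (y i)).det ^ m * a)) := by
  have h1 := reg_of_ygood h hD
  have h2 : (Matrix.of fun j i => (q • D j) (y i)) = q • (Matrix.of fun j i => D j (y i)) := by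
    ext j i
    rw [Matrix.of_apply, Matrix.smul_apply, Matrix.of_apply, Derivation.smul_apply]
  rw [h2, Matrix.det_smul, Fintype.card_fin, mul_pow, ← pow_mul, mul_assoc] at h1
  exact h1

/-- **Finiteness.** The values of the forms `a (dy) ^ m` which are good at all divisorial places, on
a fixed tuple of vector fields, span a finite-dimensional space. -/
theorem fin_values {K : Type} [Field K] [Algebra k K] {d w m : ℕ} (hd : 0 < d)
    (htr : Algebra.trdeg k K = d)
    (hfr : ∀ y : Fin d → K, IsTranscendenceBasis k y →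
      FiniteDimensional (IntermediateField.adjoin k (Set.range y)) K)
    {Z : Fin d → K} (hZ : IsTranscendenceBasis k Z) (D : Fin w → Derivation k K K) :
    ∃ V : Submodule k K, FiniteDimensional k V ∧ ∀ (y : Fin w → K) (a : K),
      (∀ P : Place k K, IsDivisorial P d → YGood w m P y a) →
      (Matrix.of fun j i => D j (y i)).det ^ m * a ∈ V := by
  classical
  let S0 : Set K := {f | ∃ (y : Fin w → K) (a : K),
    (∀ P : Place k K, IsDivisorial P d → YGood w m P y a) ∧
      f = (Matrix.of fun j i => D j (y i)).det ^ m * a}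
  have hfd := hfr Z hZ
  have hZ0 : ∀ f : MvPolynomial (Fin d) k, f ≠ 0 → aeval Z f ≠ 0 := fun f hf h0 =>
    hf ((injective_iff_map_eq_zero _).1 hZ.1 _ h0)
  -- the finite part
  choose Q0 hQ0 hQ0' using fun i => exists_clear hZ hfd (D i)
  obtain ⟨Q, hQdef⟩ : ∃ Q, Q = ∏ i, Q0 i := ⟨_, rfl⟩
  have hQ : Q ≠ 0 := by
    rw [hQdef]
    exact Finset.prod_ne_zero_iff.2 fun i _ => hQ0 i
  have hQP : ∀ p : MvPolynomial (Fin d) k, Irreducible p → ∀ P : Place k K, Adic Z p P →
      ∀ i, Pres P (aeval Z Q • D i) := by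
    intro p hp P hP i f hf
    have h1 := hQ0' i p hp P hP f hf
    rw [Derivation.smul_apply, smul_eq_mul] at h1
    rw [Derivation.smul_apply, smul_eq_mul, hQdef,
      ← Finset.mul_prod_erase Finset.univ Q0 (Finset.mem_univ i), map_mul,
      mul_comm (aeval Z (Q0 i)), mul_assoc]
    exact P.reg_mul (adic_reg hP _) h1
  obtain ⟨T, hT, hTdeg, C, c, hcount⟩ := count_L hd hZ hfd {(aeval Z Q ^ (w * m))⁻¹}
  have hTdiv : ∀ b, ∀ P ∈ T b, IsDivisorial P d := by
    intro b P hP
    obtain ⟨e, he, hf⟩ := hTdeg b P hP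
    refine div_of_deg hZ.1 (b := b) fun f hf0 hf1 => ?_
    rw [hf f hf0, hf1]
    simp
  -- the places of infinity
  have hinf : ∀ b, ∃ C1 : ℕ, ∀ P ∈ T b, ∀ f ∈ S0, Ge P (-(C1 : ℤ)) f := by
    intro b
    have h1 : ∀ P : Place k K, ∃ C1 : ℕ, P ∈ T b → ∀ f ∈ S0, Ge P (-(C1 : ℤ)) f := by
      intro P
      by_cases hP : P ∈ T b
      · obtain ⟨s, hs0, hs⟩ := P.surj
        choose C2 hC2 using fun i => exists_pow_pres htr hfr (hTdiv b P hP) hs0 hs (D i)
        refine ⟨(∑ i, C2 i) * (w * m), fun _ f hf => ?_⟩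
        obtain ⟨y, a, hgood, rfl⟩ := hf
        have h2 := scale_reg (hgood P (hTdiv b P hP)) (D := D) (q := s ^ (∑ i, C2 i))
          fun i => hC2 i _ (Finset.single_le_sum (f := C2) (fun _ _ => Nat.zero_le _)
            (Finset.mem_univ i))
        by_cases h0 : (Matrix.of fun j i => D j (y i)).det ^ m * a = 0
        · exact Or.inl h0
        right
        have h3 := h2.resolve_left (mul_ne_zero (pow_ne_zero _ (pow_ne_zero _ hs0)) h0)
        rw [P.ord_mul (pow_ne_zero _ (pow_ne_zero _ hs0)) h0, P.ord_pow, P.ord_pow, hs] at h3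
        push_cast at h3 ⊢
        linarith
      · exact ⟨0, fun h => absurd h hP⟩
    choose C1 hC1 using h1
    refine ⟨∑ P ∈ (hT b).toFinset, C1 P, fun P hP f hf => ?_⟩
    refine (hC1 P hP f hf).mono ?_
    have h2 : C1 P ≤ ∑ P ∈ (hT b).toFinset, C1 P :=
      Finset.single_le_sum (f := C1) (fun _ _ => Nat.zero_le _) ((hT b).mem_toFinset.2 hP)
    have h3 : (C1 P : ℤ) ≤ ((∑ P ∈ (hT b).toFinset, C1 P : ℕ) : ℤ) := by exact_mod_cast h2
    linarith
  choose C1 hC1 using hinf
  refine ⟨Submodule.span k S0, fd_of_bound S0 (C * ∏ b, (C1 b + c)) fun N f hli hf => ?_,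
    fun y a hgood => Submodule.subset_span ⟨y, a, hgood, rfl⟩⟩
  refine hcount C1 N f hli ?_ fun l b P hP => hC1 b P hP _ (hf l)
  intro l p hp P hP
  obtain ⟨y, a, hgood, hfl⟩ := hf l
  have h1 := scale_reg (hgood P (adic_div hZ.1 hp hP)) (D := D) (q := aeval Z Q)
    (hQP p hp P hP)
  rw [← hfl] at h1
  by_cases h0 : f l = 0
  · exact Or.inl h0
  right
  have hne : aeval Z Q ^ (w * m) ≠ 0 := pow_ne_zero _ (hZ0 Q hQ)
  refine ⟨_, Finset.mem_singleton_self _, inv_ne_zero hne, ?_⟩
  have h2 := h1.resolve_left (mul_ne_zero hne h0)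
  rw [P.ord_mul hne h0] at h2
  rw [P.ord_inv]
  push_cast
  linarith

end Pool.Agent.Q13.KO
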