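import Pool.Agent.Q13.KO.Split

/-!
Germs of the rational functions along an orbit, and Noetherian induction over the arithmetic
progressions.
-/

set_option autoImplicit false

namespace Pool.Agent.Q13.KO

open MvPolynomial Filter Pool.Agent.TH143.DE Pool.Agent.TH143.HE Pool.Agent.TH143.TW
  Pool.Agent.TH143.GE

variable {n N : ℕ}

/-- the polynomial expressions in the `v i` -/
noncomputable def AA (v : Fin n → GG) : Subalgebra ℂ GG := Algebra.adjoin ℂ (Set.range v)

/-- the quotients of polynomial expressions in the `v i` -/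
noncomputable def SS (v : Fin n → GG) : Subalgebra ℂ GG where
  carrier := {z | ∃ u ∈ AA v, ∃ w ∈ AA v, IsUnit w ∧ z * w = u}
  mul_mem' := by
    rintro z z' ⟨u, hu, w, hw, hwu, h⟩ ⟨u', hu', w', hw', hwu', h'⟩
    refine ⟨u * u', (AA v).mul_mem hu hu', w * w', (AA v).mul_mem hw hw', hwu.mul hwu', ?_⟩
    rw [← h, ← h']
    ring
  add_mem' := by
    rintro z z' ⟨u, hu, w, hw, hwu, h⟩ ⟨u', hu', w', hw', hwu', h'⟩
    refine ⟨u * w' + u' * w, (AA v).add_mem ((AA v).mul_mem hu hw') ((AA v).mul_mem hu' hw),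
      w * w', (AA v).mul_mem hw hw', hwu.mul hwu', ?_⟩
    rw [← h, ← h']
    ring
  algebraMap_mem' := fun c =>
    ⟨algebraMap ℂ GG c, (AA v).algebraMap_mem c, 1, (AA v).one_mem, isUnit_one, mul_one _⟩

theorem mem_SS {v : Fin n → GG} {z : GG} :
    z ∈ SS v ↔ ∃ u ∈ AA v, ∃ w ∈ AA v, IsUnit w ∧ z * w = u := Iff.rfl

theorem AA_le (v : Fin n → GG) : AA v ≤ SS v := fun u hu =>
  ⟨u, hu, 1, (AA v).one_mem, isUnit_one, mul_one _⟩

theorem mem_AA {v : Fin n → GG} {z : GG} :
    z ∈ AA v ↔ ∃ p : MvPolynomial (Fin n) ℂ, aeval v p = z := by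
  unfold AA
  rw [Algebra.adjoin_range_eq_range_aeval]
  rfl

theorem AA_finite (v : Fin n → GG) : Algebra.FiniteType ℂ (AA v) := by
  rw [← Subalgebra.fg_iff_finiteType]
  exact ⟨(Set.finite_range v).toFinset, by rw [Set.Finite.coe_toFinset]; rfl⟩

/-- the inverse of a unit -/
theorem SS_inv {v : Fin n → GG} {w : GG} (hw : w ∈ AA v) {z : GG} (h : z * w = 1) : z ∈ SS v :=
  ⟨1, (AA v).one_mem, w, hw, IsUnit.of_mul_eq_one z (by rw [mul_comm]; exact h), h⟩

noncomputable instance instASS (v : Fin n → GG) : Algebra (AA v) (SS v) :=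
  (Subalgebra.inclusion (AA_le v)).toRingHom.toAlgebra

theorem alg_AS (v : Fin n → GG) (u : AA v) : ((algebraMap (AA v) (SS v) u : SS v) : GG) = u := rfl

instance instTASS (v : Fin n → GG) : IsScalarTower ℂ (AA v) (SS v) :=
  IsScalarTower.of_algebraMap_eq fun _ => rfl

/-- the elements which are invertible germs -/
noncomputable def UU (v : Fin n → GG) : Submonoid (AA v) :=
  (IsUnit.submonoid GG).comap (AA v).val

instance instLoc (v : Fin n → GG) : IsLocalization (UU v) (SS v) where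
  map_units := by
    rintro ⟨w, hw⟩
    have hw' : IsUnit (w : GG) := hw
    obtain ⟨z, hz⟩ := hw'.exists_left_inv
    refine IsUnit.of_mul_eq_one (⟨z, SS_inv w.2 hz⟩ : SS v) ?_
    apply Subtype.ext
    change (w : GG) * z = 1
    rw [mul_comm]
    exact hz
  surj := by
    rintro ⟨z, u, hu, w, hw, hwu, h⟩
    exact ⟨(⟨u, hu⟩, ⟨⟨w, hw⟩, hwu⟩), Subtype.ext h⟩
  exists_of_eq := by
    intro x y h
    refine ⟨1, ?_⟩
    have h1 : (x : GG) = y := congrArg (Subtype.val : SS v → GG) h
    rw [Subtype.ext h1]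

theorem SS_noeth (v : Fin n → GG) : IsNoetherianRing (SS v) := by
  have h1 := AA_finite v
  have h2 : IsNoetherianRing (AA v) := Algebra.FiniteType.isNoetherianRing ℂ _
  exact IsLocalization.isNoetherianRing (UU v) (SS v) h2

theorem SS_ess (v : Fin n → GG) : Algebra.EssFiniteType ℂ (SS v) := by
  have h1 := AA_finite v
  have h2 : Algebra.EssFiniteType (AA v) (SS v) :=
    Algebra.EssFiniteType.of_isLocalization _ (UU v)
  exact Algebra.EssFiniteType.comp ℂ (AA v) (SS v)

/-- the ring `SS v` contains the shifts of the `v i` -/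
def Stable (v : Fin n → GG) : Prop := ∀ i, shG (v i) ∈ SS v

theorem Stable.all {v : Fin n → GG} (h : Stable v) : ∀ z ∈ SS v, shG z ∈ SS v := by
  have hA : ∀ u ∈ AA v, shG u ∈ SS v := by
    intro u hu
    unfold AA at hu
    induction hu using Algebra.adjoin_induction with
    | mem x hx =>
      obtain ⟨i, rfl⟩ := hx
      exact h i
    | algebraMap c =>
      have h1 : shG (algebraMap ℂ GG c) = algebraMap ℂ GG c := by
        rw [← gg.commutes c, shG_gg]
        rfl
      rw [h1]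
      exact (SS v).algebraMap_mem c
    | add x y _ _ hx hy =>
      rw [map_add]
      exact (SS v).add_mem hx hy
    | mul x y _ _ hx hy =>
      rw [map_mul]
      exact (SS v).mul_mem hx hy
  rintro z ⟨u, hu, w, hw, hwu, hz⟩
  obtain ⟨u', hu', w', hw', hwu', h'⟩ := hA w hw
  obtain ⟨u'', hu'', w'', hw'', hwu'', h''⟩ := hA u hu
  have hu'u : IsUnit u' := by
    rw [← h']
    exact (hwu.map shG).mul hwu'
  refine ⟨u'' * w', (AA v).mul_mem hu'' hw', u' * w'', (AA v).mul_mem hu' hw'', hu'u.mul hwu'', ?_⟩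
  rw [← h', ← h'', ← hz, map_mul]
  ring

theorem Stable.pow {v : Fin n → GG} (h : Stable v) (M : ℕ) : ∀ z ∈ SS v, (shG ^ M) z ∈ SS v := by
  induction M with
  | zero => exact fun z hz => hz
  | succ M ih =>
    intro z hz
    rw [← shG_pow_succ]
    exact h.all _ (ih z hz)

/-- the restriction to an arithmetic progression -/
noncomputable def rs (b M : ℕ) (hM : 0 < M) (v : Fin n → GG) : Fin n → GG :=
  fun i => resG b M hM (v i)

theorem aeval_rs (b M : ℕ) (hM : 0 < M) (v : Fin n → GG) (p : MvPolynomial (Fin n) ℂ) :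
    aeval (rs b M hM v) p = resG b M hM (aeval v p) :=
  (MvPolynomial.comp_aeval_apply (f := v) (resG b M hM) p).symm

theorem res_AA {b M : ℕ} {hM : 0 < M} {v : Fin n → GG} {z : GG} (hz : z ∈ AA v) :
    resG b M hM z ∈ AA (rs b M hM v) := by
  obtain ⟨p, rfl⟩ := mem_AA.1 hz
  rw [← aeval_rs]
  exact mem_AA.2 ⟨p, rfl⟩

theorem res_SS {b M : ℕ} {hM : 0 < M} {v : Fin n → GG} {z : GG} (hz : z ∈ SS v) :
    resG b M hM z ∈ SS (rs b M hM v) := by
  obtain ⟨u, hu, w, hw, hwu, h⟩ := hz
  refine ⟨resG b M hM u, res_AA hu, resG b M hM w, res_AA hw, hwu.map _, ?_⟩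
  rw [← map_mul, h]

theorem Stable.res {v : Fin n → GG} (h : Stable v) (b M : ℕ) (hM : 0 < M) :
    Stable (rs b M hM v) := by
  intro i
  unfold rs
  rw [shG_resG]
  exact res_SS (h.pow M _ (AA_le v (Algebra.subset_adjoin ⟨i, rfl⟩)))

/-- the coordinates of the sequence are polynomial expressions in the `v i` -/
def Rel (v : Fin n → GG) (x : ℕ → Fin (N + 1) → ℂ) : Prop := ∀ j, (gg fun m => x m j) ∈ AA v

theorem Rel.res {v : Fin n → GG} {x : ℕ → Fin (N + 1) → ℂ} (h : Rel v x) (b M : ℕ) (hM : 0 < M) :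
    Rel (rs b M hM v) fun m => x (b + M * m) := fun j => by
  have h1 := res_AA (b := b) (M := M) (hM := hM) (h j)
  rwa [resG_gg] at h1

/-- **Noetherian induction** -/
theorem noeth (Q : (Fin n → GG) → (ℕ → Fin (N + 1) → ℂ) → Prop)
    (hdom : ∀ v x, Stable v → IsDomain (SS v) → Rel v x → Q v x)
    (hsplit : ∀ v x, Stable v → Rel v x → ∀ (M : ℕ) (hM : 0 < M),
      (∀ b, Q (rs b M hM v) fun m => x (b + M * m)) → Q v x)
    (v : Fin n → GG) (x : ℕ → Fin (N + 1) → ℂ) (hv : Stable v) (hx : Rel v x) : Q v x := by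
  have key : ∀ J : Ideal (MvPolynomial (Fin n) ℂ), ∀ (v : Fin n → GG) (x : ℕ → Fin (N + 1) → ℂ),
      RingHom.ker (aeval v : MvPolynomial (Fin n) ℂ →ₐ[ℂ] GG) = J → Stable v → Rel v x → Q v x := by
    intro J
    induction J using WellFoundedGT.induction with
    | ind J ih =>
      intro v x hJ hv hx
      by_cases hd : IsDomain (SS v)
      · exact hdom v x hv hd hx
      · obtain ⟨M, hM, hz⟩ := split_core (SS_noeth v) hv.all hd
        refine hsplit v x hv hx M hM fun b => ?_
        refine ih _ ?_ (rs b M hM v) (fun m => x (b + M * m)) rfl (hv.res b M hM) (hx.res b M hM)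
        rw [← hJ]
        obtain ⟨z, ⟨u, hu, w, hw, hwu, h⟩, hz0, hzr⟩ := hz b
        obtain ⟨p, hp⟩ := mem_AA.1 hu
        refine lt_of_le_of_ne ?_ ?_
        · intro q hq
          rw [RingHom.mem_ker] at hq ⊢
          rw [aeval_rs, hq, map_zero]
        · intro heq
          have h1 : p ∈ RingHom.ker
              (aeval (rs b M hM v) : MvPolynomial (Fin n) ℂ →ₐ[ℂ] GG) := by
            rw [RingHom.mem_ker, aeval_rs, hp, ← h, map_mul, hzr, zero_mul]
          rw [← heq, RingHom.mem_ker, hp, ← h] at h1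
          exact hz0 ((hwu.mul_left_eq_zero).1 h1)
  exact key _ v x rfl hv hx

end Pool.Agent.Q13.KO
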