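import Pool.Agent.Q13.KO.Chain

/-!
The generic values of the forms satisfy linear recurrences with constant coefficients.
-/

set_option autoImplicit false
set_option linter.unusedSectionVars false

open MvPolynomial

namespace Pool.Agent.Q13.KO

variable {k K : Type} [Field k] [CharZero k] [Field K] [Algebra k K]

/-- A linear relation in a finite-dimensional space. -/
theorem exists_lin_rel {V : Type} [AddCommGroup V] [Module k V] {s : Set V}
    (h : FiniteDimensional k (Submodule.span k s)) {g : ℕ → V} (hg : ∀ n, g n ∈ s) :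
    ∃ (r : ℕ) (c : ℕ → k), (∃ i ≤ r, c i ≠ 0) ∧ ∑ i ∈ Finset.range (r + 1), c i • g i = 0 := by
  classical
  obtain ⟨r, hr⟩ : ∃ r, r = Module.finrank k (Submodule.span k s) := ⟨_, rfl⟩
  have h1 : ¬ LinearIndependent k (fun i : Fin (r + 1) =>
      (⟨g i, Submodule.subset_span (hg i)⟩ : Submodule.span k s)) := by
    intro h2
    have h3 := h2.fintype_card_le_finrank
    rw [Fintype.card_fin] at h3
    omega
  obtain ⟨c, hc, i0, hi0⟩ := Fintype.not_linearIndependent_iff.1 h1
  refine ⟨r, fun i => if hi : i < r + 1 then c ⟨i, hi⟩ else 0, ⟨i0, by omega, ?_⟩, ?_⟩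
  · simp only []
    rw [dif_pos i0.2]
    exact hi0
  · rw [← Fin.sum_univ_eq_sum_range
      (fun i => (if hi : i < r + 1 then c ⟨i, hi⟩ else 0) • g i)]
    have h2 := congrArg (fun z : Submodule.span k s => (z : V)) hc
    simp only [Submodule.coe_sum, Submodule.coe_smul, Submodule.coe_zero] at h2
    rw [← h2]
    refine Finset.sum_congr rfl fun i _ => ?_
    rw [dif_pos i.2]

theorem rel_shift {V : Type} [AddCommGroup V] [Module k V] {g : ℕ → V} {T : V → V}
    (hadd : ∀ a b, T (a + b) = T a + T b) (h0 : T 0 = 0) (hsm : ∀ (c : k) a, T (c • a) = c • T a)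
    (hT : ∀ n, T (g n) = g (n + 1)) {r : ℕ} {c : ℕ → k}
    (h : ∑ i ∈ Finset.range (r + 1), c i • g i = 0) (n : ℕ) :
    ∑ i ∈ Finset.range (r + 1), c i • g (n + i) = 0 := by
  have hsum : ∀ (s : Finset ℕ) (f : ℕ → V), T (∑ i ∈ s, f i) = ∑ i ∈ s, T (f i) := by
    intro s f
    classical
    induction s using Finset.induction_on with
    | empty => rw [Finset.sum_empty, Finset.sum_empty, h0]
    | insert a s ha ih => rw [Finset.sum_insert ha, Finset.sum_insert ha, hadd, ih]
  induction n with
  | zero => simpa using h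
  | succ n ih =>
    have h1 := congrArg T ih
    rw [h0, hsum] at h1
    rw [← h1]
    refine Finset.sum_congr rfl fun i _ => ?_
    rw [hsm, hT]
    congr 2
    omega

variable {d w : ℕ} {Z : Fin d → K} {dd : Fin d → Derivation k K K}

theorem TT_smul (σ : K →ₐ[k] K) (c : k) (p : MvPolynomial (Fin w × Fin d) K) :
    TT dd Z σ (c • p) = c • TT dd Z σ p := by
  have h1 : ∀ q : MvPolynomial (Fin w × Fin d) K, c • q = C (algebraMap k K c) * q := by
    intro q
    rw [C_mul', algebraMap_smul]
  rw [h1, h1, map_mul, TT_C, AlgHom.commutes]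

/-- a polynomial of bounded degree is determined by its values on a grid -/
theorem fin_of_values {ι : Type} [Finite ι] (M : ℕ) (s : Set (MvPolynomial ι K))
    (hs : ∀ p ∈ s, p.IsHomogeneous M)
    (hV : ∀ A : ι → K, ∃ V : Submodule k K, FiniteDimensional k V ∧ ∀ p ∈ s, eval A p ∈ V) :
    FiniteDimensional k (Submodule.span k s) := by
  classical
  have hfin := Fintype.ofFinite ι
  have hK : CharZero K := charZero_of_injective_algebraMap (algebraMap k K).injective
  choose V hVf hV using hV
  let A : (ι → Fin (M + 1)) → ι → K := fun t i => ((t i : ℕ) : K)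
  let ev : (ι → Fin (M + 1)) → (MvPolynomial ι K →ₗ[k] K) := fun t =>
    ((aeval (A t) : MvPolynomial ι K →ₐ[K] K).toLinearMap.restrictScalars k)
  have hev : ∀ t p, ev t p = eval (A t) p := fun t p => by
    change aeval (A t) p = _
    rw [aeval_eq_eval]
  have hmem : ∀ t, ∀ p ∈ Submodule.span k s, ev t p ∈ V (A t) := by
    intro t p hp
    have h1 : Submodule.span k s ≤ (V (A t)).comap (ev t) := by
      rw [Submodule.span_le]
      intro q hq
      change ev t q ∈ V (A t)
      rw [hev]
      exact hV _ q hq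
    exact h1 hp
  have hdeg : ∀ p ∈ Submodule.span k s, p.IsHomogeneous M := by
    intro p hp
    have h1 : Submodule.span k s ≤ (homogeneousSubmodule ι K M).restrictScalars k := by
      rw [Submodule.span_le]
      exact fun q hq => hs q hq
    exact h1 hp
  let L : Submodule.span k s →ₗ[k] (∀ t : ι → Fin (M + 1), V (A t)) :=
    LinearMap.pi fun t => LinearMap.codRestrict (V (A t)) ((ev t).comp (Submodule.subtype _))
      fun p => hmem t p p.2
  have hL : Function.Injective L := by
    rw [injective_iff_map_eq_zero]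
    intro p hp
    apply Subtype.ext
    change (p : MvPolynomial ι K) = 0
    refine eq_zero_of_eval_zero_at_prod_finset (p : MvPolynomial ι K)
      (fun _ => Finset.univ.image fun j : Fin (M + 1) => ((j : ℕ) : K)) (fun i => ?_) fun x hx => ?_
    · rw [Finset.card_image_of_injective _ (fun a b hab => Fin.ext (Nat.cast_injective hab)),
        Finset.card_univ, Fintype.card_fin]
      exact Nat.lt_succ_of_le ((degreeOf_le_totalDegree _ _).trans (hdeg p p.2).totalDegree_le)
    · have h1 : ∀ i, ∃ j : Fin (M + 1), ((j : ℕ) : K) = x i := fun i => by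
        obtain ⟨j, -, hj⟩ := Finset.mem_image.1 (hx i)
        exact ⟨j, hj⟩
      choose t ht using h1
      have h2 := congrArg (fun z => ((z t : V (A t)) : K)) hp
      have h3 : ev t (p : MvPolynomial ι K) = 0 := h2
      rw [hev] at h3
      have h4 : A t = x := funext ht
      rwa [h4] at h3
  have h1 : ∀ t, FiniteDimensional k (V (A t)) := fun t => hVf _
  exact Module.Finite.of_injective L hL

/-- **The recurrence.** The generic values of the forms `σ ^ n (a (dy) ^ m)` satisfy a linear
recurrence with constant coefficients. -/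
theorem exists_rec (hZ : IsTranscendenceBasis k Z)
    (hdd : ∀ i j, dd i (Z j) = if i = j then 1 else 0) (σ : K →ₐ[k] K) (m : ℕ)
    (S : Set ((Fin w → K) × K))
    (hS : ∀ D : Fin w → Derivation k K K, ∃ V : Submodule k K, FiniteDimensional k V ∧
      ∀ q ∈ S, (Matrix.of fun j i => D j (q.1 i)).det ^ m * q.2 ∈ V)
    (y : ℕ → Fin w → K) (a : ℕ → K) (hy : ∀ n i, y (n + 1) i = σ (y n i))
    (ha : ∀ n, a (n + 1) = σ (a n)) (hmem : ∀ n, (y n, a n) ∈ S) :
    ∃ (r : ℕ) (c : ℕ → k), (∃ i ≤ r, c i ≠ 0) ∧
      ∀ n, ∑ i ∈ Finset.range (r + 1), c i • gform dd m (y (n + i)) (a (n + i)) = 0 := by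
  have h1 : FiniteDimensional k (Submodule.span k {p : MvPolynomial (Fin w × Fin d) K |
      ∃ q ∈ S, p = gform dd m q.1 q.2}) := by
    refine fin_of_values (k := k) (w * m) {p : MvPolynomial (Fin w × Fin d) K |
      ∃ q ∈ S, p = gform dd m q.1 q.2} ?_ ?_
    · rintro _ ⟨q, -, rfl⟩
      exact gform_homog m q.1 q.2
    · intro A
      obtain ⟨V, h1, h2⟩ := hS fun j => ∑ l, A (j, l) • dd l
      refine ⟨V, h1, ?_⟩
      rintro _ ⟨q, hq, rfl⟩
      rw [eval_gform]
      exact h2 q hq
  obtain ⟨g, hg⟩ : ∃ g : ℕ → MvPolynomial (Fin w × Fin d) K,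
      ∀ n, g n = gform dd m (y n) (a n) := ⟨_, fun _ => rfl⟩
  obtain ⟨r, c, hc, hrel⟩ := exists_lin_rel h1 (g := g) fun n => ⟨(y n, a n), hmem n, hg n⟩
  refine ⟨r, c, hc, fun n => ?_⟩
  have hT : ∀ n, TT dd Z σ (g n) = g (n + 1) := by
    intro n
    rw [hg, hg, TT_gform hZ hdd]
    have h2 : (fun l => σ (y n l)) = y (n + 1) := funext fun l => (hy n l).symm
    rw [h2, ha]
  have h3 : ∑ i ∈ Finset.range (r + 1), c i • g (n + i) = 0 := by
    refine rel_shift (k := k) (g := g) (T := fun p => TT dd Z σ p) ?_ ?_ ?_ ?_ ?_ n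
    · exact fun p q => map_add (TT dd Z σ) p q
    · exact map_zero (TT dd Z σ)
    · exact fun c p => TT_smul σ c p
    · exact hT
    · exact hrel
  have h4 : ∀ i ∈ Finset.range (r + 1), c i • g (n + i) =
      c i • gform dd m (y (n + i)) (a (n + i)) := by
    intro i _
    rw [hg]
  exact (Finset.sum_congr rfl h4).symm.trans h3

end Pool.Agent.Q13.KO
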