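import Pool.Agent.TH143.GE.Split

/-!
Noetherian rings of germs of sequences which are closed under the shift: on arithmetic progressions
they become smaller, as long as they are not domains.
-/

set_option autoImplicit false

namespace Pool.Agent.Q13.KO

open MvPolynomial Filter Pool.Agent.TH143.DE Pool.Agent.TH143.HE Pool.Agent.TH143.TW
  Pool.Agent.TH143.GE

/-- an injective endomorphism of a Noetherian ring permutes the minimal primes -/
theorem exists_period_primes {R : Type} [CommRing R] [IsNoetherianRing R] (σ : R →+* R)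
    (hσ : Function.Injective σ) :
    ∃ M : ℕ, 0 < M ∧ ∀ P ∈ minimalPrimes R, P.comap (σ ^ M) = P := by
  classical
  have hfin : Finite (minimalPrimes R) := (minimalPrimes.finite_of_isNoetherianRing R).to_subtype
  have hex : ∀ P : minimalPrimes R, ∃ Q : minimalPrimes R, (Q : Ideal R).comap σ = P := by
    rintro ⟨P, hP⟩
    have h1 : (⊥ : Ideal R).comap σ = ⊥ := Ideal.comap_bot_of_injective σ hσ
    have h2 : P ∈ ((⊥ : Ideal R).comap σ).minimalPrimes := by
      rw [h1]
      exact hP
    obtain ⟨Q, hQ, hQP⟩ := Ideal.exists_minimalPrimes_comap_eq σ P h2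
    exact ⟨⟨Q, hQ⟩, hQP⟩
  choose g hg using hex
  have hinj : Function.Injective g := by
    intro P P' h
    apply Subtype.ext
    rw [← hg P, ← hg P', h]
  let π : Equiv.Perm (minimalPrimes R) :=
    Equiv.ofBijective g (Finite.injective_iff_bijective.1 hinj)
  have hπ : ∀ P, ((π P : minimalPrimes R) : Ideal R).comap σ = P := fun P => hg P
  have hpow : ∀ (n : ℕ) (P : minimalPrimes R),
      (((π ^ n) P : minimalPrimes R) : Ideal R).comap (σ ^ n) = P := by
    intro n
    induction n with
    | zero =>
      intro P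
      rw [pow_zero, pow_zero]
      exact Ideal.comap_id _
    | succ n ih =>
      intro P
      have h1 : σ ^ (n + 1) = (σ ^ n).comp σ := by rw [pow_succ]; rfl
      rw [h1, pow_succ, Equiv.Perm.mul_apply, ← Ideal.comap_comap, ih, hπ]
  refine ⟨orderOf π, orderOf_pos π, fun P hP => ?_⟩
  have h1 := hpow (orderOf π) ⟨P, hP⟩
  rw [pow_orderOf_eq_one] at h1
  exact h1

theorem split_core {S : Subalgebra ℂ GG} (hN : IsNoetherianRing S)
    (hst : ∀ x ∈ S, shG x ∈ S) (hS : ¬ IsDomain S) :
    ∃ (M : ℕ) (hM : 0 < M), ∀ b, ∃ z ∈ S, z ≠ 0 ∧ resG b M hM z = 0 := by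
  classical
  let σ : S →+* S :=
    { toFun := fun x => ⟨shG x, hst x x.2⟩
      map_one' := Subtype.ext (map_one shG)
      map_mul' := fun x y => Subtype.ext (map_mul shG (x : GG) (y : GG))
      map_zero' := Subtype.ext (map_zero shG)
      map_add' := fun x y => Subtype.ext (map_add shG (x : GG) (y : GG)) }
  have hσ : Function.Injective σ := by
    intro x y h
    apply Subtype.ext
    apply shG_inj
    exact congrArg Subtype.val h
  have hσpow : ∀ (n : ℕ) (x : S), (((σ ^ n) x : S) : GG) = (shG ^ n) (x : GG) := by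
    intro n
    induction n with
    | zero => exact fun x => rfl
    | succ n ih =>
      intro x
      have h1 : (σ ^ (n + 1)) x = (σ ^ n) (σ x) := by rw [pow_succ]; rfl
      rw [h1, ih, pow_succ]
      rfl
  obtain ⟨M, hM, hper⟩ := exists_period_primes σ hσ
  refine ⟨M, hM, ?_⟩
  have hfin : Finite (minimalPrimes S) := (minimalPrimes.finite_of_isNoetherianRing S).to_subtype
  have hFG : ∀ P : minimalPrimes S, ∃ T : Finset S, Ideal.span (T : Set S) = (P : Ideal S) :=
    fun P => (IsNoetherian.noetherian (P : Ideal S))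
  choose T hT using hFG
  choose u hu using fun x : S => gg_surj (x : GG)
  -- zero, addition, multiplication
  have huz : ∀ x : S, x = 0 → ∀ᶠ n in atTop, u x n = 0 := by
    rintro x rfl
    have h1 := hu 0
    rw [ZeroMemClass.coe_zero, gg_zero] at h1
    exact h1
  have hspan : ∀ (P : minimalPrimes S), ∀ r ∈ Ideal.span (T P : Set S),
      ∀ᶠ n in atTop, (∀ s ∈ T P, u s n = 0) → u r n = 0 := by
    intro P r hr
    induction hr using Submodule.span_induction with
    | mem x hx => exact Eventually.of_forall fun n h => h x hx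
    | zero =>
      filter_upwards [huz 0 rfl] with n hn _
      exact hn
    | add x y _ _ hx hy =>
      have h1 : ∀ᶠ n in atTop, u (x + y) n = u x n + u y n := by
        have h2 : gg (u (x + y)) = gg (u x + u y) := by
          rw [map_add, hu, hu, hu]
          rfl
        exact gg_eq.1 h2
      filter_upwards [hx, hy, h1] with n h2 h3 h4 h5
      rw [h4, h2 h5, h3 h5, add_zero]
    | smul c x _ hx =>
      have h1 : ∀ᶠ n in atTop, u (c • x) n = u c n * u x n := by
        have h2 : gg (u (c • x)) = gg (u c * u x) := by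
          rw [map_mul, hu, hu, hu]
          rfl
        exact gg_eq.1 h2
      filter_upwards [hx, h1] with n h2 h3 h4
      rw [h3, h2 h4, mul_zero]
  have hshift : ∀ x : S, ∀ᶠ n in atTop, u ((σ ^ M) x) n = u x (n + M) := by
    intro x
    have h2 : gg (u ((σ ^ M) x)) = gg fun n => u x (n + M) := by
      rw [hu, hσpow, ← hu x, shG_pow]
    exact gg_eq.1 h2
  have h1 : ∀ᶠ n in atTop, ∀ P : minimalPrimes S, ∀ t ∈ T P,
      (∀ s ∈ T P, u s n = 0) → u t (n + M) = 0 := by
    rw [eventually_all]
    intro P
    rw [Finset.eventually_all]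
    intro t ht
    have htP : (σ ^ M) t ∈ Ideal.span (T P : Set S) := by
      rw [hT]
      have h2 : t ∈ (P : Ideal S) := by
        rw [← hT]
        exact Ideal.subset_span ht
      rw [← hper P P.2] at h2
      exact h2
    filter_upwards [hspan P _ htP, hshift t] with n h2 h3 h4
    rw [← h3]
    exact h2 h4
  have h2 : ∀ᶠ n in atTop, ∃ P : minimalPrimes S, ∀ t ∈ T P, u t n = 0 := by
    have hfint := Fintype.ofFinite (minimalPrimes S)
    have h3 : ∀ᶠ n in atTop, ∀ τ : (∀ P : minimalPrimes S, T P),
        ∏ P, u (τ P : S) n = 0 := by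
      rw [eventually_all]
      intro τ
      have h4 : (∏ P, (τ P : S)) = 0 := by
        have h5 : (∏ P, (τ P : S)) ∈ sInf (minimalPrimes S) := by
          rw [Submodule.mem_sInf]
          intro P hP
          have h6 : ((τ ⟨P, hP⟩ : T ⟨P, hP⟩) : S) ∈ P := by
            have h7 : ((τ ⟨P, hP⟩ : T ⟨P, hP⟩) : S) ∈ Ideal.span (T ⟨P, hP⟩ : Set S) :=
              Ideal.subset_span (τ ⟨P, hP⟩).2
            rw [hT] at h7
            exact h7
          exact Ideal.mem_of_dvd P (Finset.dvd_prod_of_mem (fun Q => ((τ Q : T Q) : S))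
            (Finset.mem_univ (⟨P, hP⟩ : minimalPrimes S))) h6
        have h6 : sInf (minimalPrimes S) = (⊥ : Ideal S).radical := Ideal.sInf_minimalPrimes
        have hred : IsReduced S := isReduced_of_injective S.val Subtype.val_injective
        have h8 : (⊥ : Ideal S).radical = ⊥ := by
          have := nilradical_eq_zero S
          exact this
        rw [h6, h8] at h5
        exact h5
      have h5 : gg (∏ P, u (τ P : S)) = gg 0 := by
        rw [map_prod, map_zero]
        have h6 : ∀ P, gg (u (τ P : S)) = ((τ P : S) : GG) := fun P => hu _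
        rw [Finset.prod_congr rfl fun P _ => h6 P]
        have h7 := congrArg (Subtype.val : S → GG) h4
        exact (map_prod S.val (fun P => ((τ P : T P) : S)) Finset.univ).symm.trans h7
      filter_upwards [gg_eq.1 h5] with n hn
      rw [Finset.prod_apply] at hn
      exact hn
    filter_upwards [h3] with n hn
    by_contra hcon
    push Not at hcon
    choose t ht htn using hcon
    exact Finset.prod_ne_zero_iff.2 (fun P _ => htn P) (hn fun P => ⟨t P, ht P⟩)
  obtain ⟨n0, hn0⟩ := eventually_atTop.1 (h1.and h2)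
  intro b
  have hle : n0 ≤ b + M * n0 := by
    have h3 : 1 * n0 ≤ M * n0 := Nat.mul_le_mul_right n0 hM
    omega
  obtain ⟨P, hP⟩ := (hn0 (b + M * n0) hle).2
  have h3 : ∀ k, ∀ t ∈ T P, u t (b + M * (n0 + k)) = 0 := by
    intro k
    induction k with
    | zero => exact hP
    | succ k ih =>
      intro t ht
      have h4 : n0 ≤ b + M * (n0 + k) := by
        have h3 : 1 * (n0 + k) ≤ M * (n0 + k) := Nat.mul_le_mul_right _ hM
        omega
      have h5 := (hn0 _ h4).1 P t ht ih
      have h6 : b + M * (n0 + (k + 1)) = b + M * (n0 + k) + M := by ring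
      rw [h6]
      exact h5
  have hne : ∃ t ∈ T P, t ≠ 0 := by
    by_contra hcon
    push Not at hcon
    have h4 : (P : Ideal S) = ⊥ := by
      rw [← hT, Ideal.span_eq_bot]
      exact fun x hx => hcon x hx
    have h5 : (P : Ideal S).IsPrime := P.2.1.1
    rw [h4] at h5
    exact hS (IsDomain.of_bot_isPrime S)
  obtain ⟨t, ht, ht0⟩ := hne
  refine ⟨t, t.2, fun h0 => ht0 (Subtype.ext h0), ?_⟩
  rw [← hu t, resG_gg, gg_zero]
  refine eventually_atTop.2 ⟨n0, fun m hm => ?_⟩
  have h4 := h3 (m - n0) t ht
  rwa [Nat.add_sub_cancel' hm] at h4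

end Pool.Agent.Q13.KO
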